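import Pool.Agent.R366.LG.Basic

/-!
# Exceptional terms of an arithmetic progression
-/

set_option autoImplicit false

namespace Pool.Agent.R366.LG

open Finset Filter

/-- the exceptional terms at one scale -/
theorem ap_scale (ξ τ c : ℝ) (hτ : 0 < τ) (hc : 0 < c)
    (hroth : ∀ q : ℕ, 1 ≤ q → ∀ p : ℤ, c ≤ (q : ℝ) ^ (1 + τ) * |q * ξ - p|)
    (β : ℝ) (H Q : ℕ) (hH : 1 ≤ H) (hQ : 1 ≤ Q) (w : ℝ) (hw : 0 ≤ w) (D : ℝ) (hD0 : 0 ≤ D)
    (hD : ∀ n : ℕ, 1 ≤ n → n ≤ 2 * Q * H → (n.divisors.card : ℝ) ≤ D)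
    (Ex : Finset ℕ) (hEx : ∀ a ∈ Ex, a < H ∧ ∃ (p : ℤ) (q : ℕ), Q ≤ q ∧ q < 2 * Q ∧
      |(a : ℝ) * ξ + β - (p : ℝ) / q| ≤ w) :
    (Ex.card : ℝ) ≤ 16 * (Q : ℝ) ^ 2 * H * w +
      4 * H * (((2 * Q : ℕ) : ℝ) * D * (1 + Real.log ((2 * Q * H : ℕ) : ℝ)) *
        (2 / (c * H)) ^ (1 / (1 + τ))) := by
  classical
  have hQ0 : (0 : ℝ) < Q := by exact_mod_cast hQ
  have hH0 : (0 : ℝ) < H := by exact_mod_cast hH
  choose W hW1 hWn hWl hsep using fun q : ℕ => Pool.Agent.TH42.LD.first_small ((q : ℝ) * ξ) H hH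
  set E : ℕ → Finset ℕ := fun q => Ex.filter (fun a => ∃ p : ℤ,
    |(a : ℝ) * ξ + β - (p : ℝ) / q| ≤ w) with hE
  have hsub : Ex ⊆ (Ico Q (2 * Q)).biUnion E := by
    intro a ha
    obtain ⟨_, p, q, h1, h2, h3⟩ := hEx a ha
    rw [mem_biUnion]
    refine ⟨q, mem_Ico.mpr ⟨h1, h2⟩, ?_⟩
    simp only [hE]
    rw [mem_filter]
    exact ⟨ha, p, h3⟩
  have hEq : ∀ q ∈ Ico Q (2 * Q), ((E q).card : ℝ) ≤
      8 * H * (2 * Q * w) + 4 * H * (1 / ((W q : ℕ) : ℝ)) := by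
    intro q hq
    rw [mem_Ico] at hq
    have hq0 : (0 : ℝ) < q := by
      have : 0 < q := by omega
      exact_mod_cast this
    set f : ℕ → ℕ × ℤ := fun a => (a, round ((q : ℝ) * ((a : ℝ) * ξ + β))) with hf
    have hfinj : Set.InjOn f (E q : Set ℕ) := by
      intro a _ b _ h
      exact (Prod.mk.inj h).1
    have hcard : ((E q).image f).card = (E q).card := Finset.card_image_of_injOn hfinj
    rw [← hcard]
    have h := inhom_count ((q : ℝ) * ξ) ((q : ℝ) * β) H (W q) (hW1 q) (hWn q) (hsep q)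
      (2 * Q * w) (by positivity) ((E q).image f) (by
        intro z hz
        rw [mem_image] at hz
        obtain ⟨a, ha, rfl⟩ := hz
        simp only [hE] at ha
        rw [mem_filter] at ha
        obtain ⟨haEx, p, hp⟩ := ha
        simp only [hf]
        refine ⟨(hEx a haEx).1.le, ?_⟩
        have e1 : (a : ℝ) * ((q : ℝ) * ξ) + (q : ℝ) * β = (q : ℝ) * ((a : ℝ) * ξ + β) := by ring
        rw [e1]
        refine (round_le _ p).trans ?_
        have e2 : (q : ℝ) * ((a : ℝ) * ξ + β) - p = q * ((a : ℝ) * ξ + β - (p : ℝ) / q) := by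
          field_simp
        rw [e2, abs_mul, abs_of_pos hq0]
        have h2 : (q : ℝ) ≤ 2 * Q := by exact_mod_cast hq.2.le
        exact mul_le_mul h2 hp (abs_nonneg _) (by positivity))
    refine h.trans (le_of_eq ?_)
    rw [mul_one_div, mul_div_assoc]
  have hcard : (Ex.card : ℝ) ≤ ∑ q ∈ Ico Q (2 * Q), ((E q).card : ℝ) := by
    exact_mod_cast (Finset.card_le_card hsub).trans Finset.card_biUnion_le
  refine hcard.trans ((Finset.sum_le_sum hEq).trans ?_)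
  rw [Finset.sum_add_distrib, Finset.sum_const, Nat.card_Ico, nsmul_eq_mul, ← Finset.mul_sum]
  have e3 : ((2 * Q - Q : ℕ) : ℝ) = Q := by
    have : 2 * Q - Q = Q := by omega
    rw [this]
  rw [e3]
  have hinv := inv_sum ξ τ c hτ hc hroth (2 * Q) H H hH D hD0 hD (Ico Q (2 * Q)) W (by
    intro q hq
    rw [mem_Ico] at hq
    exact ⟨by omega, hq.2.le, hW1 q, hWn q, hWl q⟩)
  refine add_le_add (le_of_eq (by ring)) (mul_le_mul_of_nonneg_left hinv (by positivity))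

/-- few exceptional terms of short progressions -/
theorem ap_few (ξ : ℝ) (τ c : ℝ) (hτ : 0 < τ) (hc : 0 < c)
    (hroth : ∀ q : ℕ, 1 ≤ q → ∀ p : ℤ, c ≤ (q : ℝ) ^ (1 + τ) * |q * ξ - p|)
    (ε : ℝ) (hε : 0 < ε) (H0 : ℕ) :
    ∃ c1 : ℝ, 0 < c1 ∧ ∀ (β : ℝ) (H : ℕ), H ≤ H0 → ∀ Ex : Finset ℕ,
      (∀ a ∈ Ex, a < H ∧ ∃ (p : ℤ) (q : ℕ), 2 ≤ q ∧ q ≤ H0 ∧
        |(a : ℝ) * ξ + β - (p : ℝ) / q| ≤ c1 / ((q : ℝ) ^ 2 * Real.log q ^ (1 + ε))) →
      Ex.card ≤ 1 := by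
  have hlog2 : 0 < Real.log 2 := Real.log_pos (by norm_num)
  set L : ℝ := Real.log 2 ^ (1 + ε) with hL
  have hL0 : 0 < L := by rw [hL]; positivity
  set K : ℝ := ((H0 : ℝ) + 1) ^ 3 with hK
  have hK0 : 0 < K := by rw [hK]; positivity
  have hK1 : 1 ≤ K := by
    rw [hK]
    apply one_le_pow₀
    have : (0 : ℝ) ≤ H0 := Nat.cast_nonneg _
    linarith
  set c1 : ℝ := c * L / (4 * (K * K ^ (1 + τ))) with hc1
  have hc10 : 0 < c1 := by rw [hc1]; positivity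
  refine ⟨c1, hc10, fun β H hH Ex hEx => ?_⟩
  rw [Finset.card_le_one]
  have hbnd : ∀ q : ℕ, 2 ≤ q → c1 / ((q : ℝ) ^ 2 * Real.log q ^ (1 + ε)) ≤ c1 / L := by
    intro q hq
    have hq2 : (2 : ℝ) ≤ q := by exact_mod_cast hq
    apply div_le_div_of_nonneg_left hc10.le hL0
    have h5 : L ≤ Real.log q ^ (1 + ε) :=
      Real.rpow_le_rpow hlog2.le (Real.log_le_log (by norm_num) hq2) (by linarith)
    have hq4 : (1 : ℝ) ≤ (q : ℝ) ^ 2 := by nlinarith
    nlinarith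
  have key : ∀ a ∈ Ex, ∀ b ∈ Ex, ¬ a < b := by
    intro a ha b hb hab
    obtain ⟨ha1, p, q, hq2, hqH, hp⟩ := hEx a ha
    obtain ⟨hb1, p', q', hq2', hqH', hp'⟩ := hEx b hb
    have hp1 := hp.trans (hbnd q hq2)
    have hp1' := hp'.trans (hbnd q' hq2')
    have hq0 : (0 : ℝ) < q := by
      have : 0 < q := by omega
      exact_mod_cast this
    have hq0' : (0 : ℝ) < q' := by
      have : 0 < q' := by omega
      exact_mod_cast this
    set n : ℕ := (b - a) * (q * q') with hn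
    have hn1 : 1 ≤ n := by
      rw [hn]
      exact Nat.mul_pos (by omega) (Nat.mul_pos (by omega) (by omega))
    have hr := hroth n hn1 (p' * q - p * q')
    have e1 : (n : ℝ) * ξ - ((p' * q - p * q' : ℤ) : ℝ) =
        ((q : ℝ) * q') * (((b : ℝ) * ξ + β - (p' : ℝ) / q') -
          ((a : ℝ) * ξ + β - (p : ℝ) / q)) := by
      rw [hn]
      push_cast [Nat.cast_sub hab.le]
      field_simp
      ring
    have hqq : (q : ℝ) * q' ≤ K := by
      have h1 : (q : ℝ) ≤ H0 + 1 := by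
        have : (q : ℝ) ≤ H0 := by exact_mod_cast hqH
        linarith
      have h2 : (q' : ℝ) ≤ H0 + 1 := by
        have : (q' : ℝ) ≤ H0 := by exact_mod_cast hqH'
        linarith
      have h3 : (1 : ℝ) ≤ (H0 : ℝ) + 1 := by
        have : (0 : ℝ) ≤ H0 := Nat.cast_nonneg _
        linarith
      have h4 : (q : ℝ) * q' ≤ ((H0 : ℝ) + 1) * ((H0 : ℝ) + 1) :=
        mul_le_mul h1 h2 hq0'.le (by positivity)
      have h5 : ((H0 : ℝ) + 1) * ((H0 : ℝ) + 1) ≤ K := by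
        rw [hK]
        nlinarith
      linarith
    have hnK : (n : ℝ) ≤ K := by
      have h1 : (n : ℝ) ≤ ((H0 * (H0 * H0) : ℕ) : ℝ) := by
        have : n ≤ H0 * (H0 * H0) := by
          rw [hn]
          exact Nat.mul_le_mul (by omega) (Nat.mul_le_mul hqH hqH')
        exact_mod_cast this
      push_cast at h1
      have h2 : (0 : ℝ) ≤ H0 := Nat.cast_nonneg _
      rw [hK]
      nlinarith [mul_nonneg h2 h2, mul_nonneg h2 (mul_nonneg h2 h2)]
    have habs : |(n : ℝ) * ξ - ((p' * q - p * q' : ℤ) : ℝ)| ≤ K * (2 * (c1 / L)) := by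
      rw [e1, abs_mul, abs_of_pos (by positivity : (0 : ℝ) < (q : ℝ) * q')]
      have h1 := abs_sub ((b : ℝ) * ξ + β - (p' : ℝ) / q') ((a : ℝ) * ξ + β - (p : ℝ) / q)
      refine mul_le_mul hqq (h1.trans (by linarith)) (abs_nonneg _) hK0.le
    have hpow : (n : ℝ) ^ (1 + τ) ≤ K ^ (1 + τ) :=
      Real.rpow_le_rpow (Nat.cast_nonneg _) hnK (by linarith)
    have h1 : c ≤ K ^ (1 + τ) * (K * (2 * (c1 / L))) :=
      hr.trans (mul_le_mul hpow habs (abs_nonneg _) (by positivity))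
    have h2 : K ^ (1 + τ) * (K * (2 * (c1 / L))) = c / 2 := by
      rw [hc1]
      have : K ^ (1 + τ) ≠ 0 := by positivity
      field_simp
      ring
    rw [h2] at h1
    linarith
  intro a ha b hb
  rcases lt_trichotomy a b with h | h | h
  · exact absurd h (key a ha b hb)
  · exact h
  · exact absurd h (key b hb a ha)

end Pool.Agent.R366.LG
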