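import Pool.Agent.R366.LG.AP

/-!
# Exceptional terms of an arithmetic progression at all scales
-/

set_option autoImplicit false

namespace Pool.Agent.R366.LG

open Finset Filter

/-- logarithm of a product against a power -/
theorem log_bound (σ : ℝ) (hσ : 0 < σ) (x : ℝ) (hx : 1 ≤ x) (y : ℝ) (hy : 1 ≤ y) (k : ℕ)
    (hyx : y ≤ x ^ k) : 1 + Real.log y ≤ (1 + k / σ) * x ^ σ := by
  have hx0 : 0 < x := by linarith
  have h1 : Real.log y ≤ k * Real.log x := by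
    rw [← Real.log_pow]
    exact Real.log_le_log (by linarith) hyx
  have h2 : Real.log x ≤ x ^ σ / σ := Real.log_le_rpow_div hx0.le hσ
  have h3 : 1 ≤ x ^ σ := Real.one_le_rpow hx hσ.le
  have h4 : (k : ℝ) * Real.log x ≤ k * (x ^ σ / σ) :=
    mul_le_mul_of_nonneg_left h2 (Nat.cast_nonneg k)
  have h5 : (1 + k / σ) * x ^ σ = x ^ σ + k * (x ^ σ / σ) := by ring
  rw [h5]
  linarith

theorem ap_large (ξ : ℝ)
    (hroth : ∀ τ : ℝ, 0 < τ → ∃ c : ℝ, 0 < c ∧ ∀ q : ℕ, 1 ≤ q → ∀ p : ℤ,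
      c ≤ (q : ℝ) ^ (1 + τ) * |q * ξ - p|)
    (κ ε η c : ℝ) (hκ0 : 0 < κ) (hκ : κ < 1) (hε : 0 < ε) (hη : 0 < η) (hc : 0 < c)
    (hc2 : 16 * c * ∑' n : ℕ, 1 / ((n : ℝ) * Real.log 2) ^ (1 + ε) ≤ η / 2) :
    ∀ᶠ H : ℕ in atTop, ∀ β : ℝ, ∀ Ex : Finset ℕ, (∀ a ∈ Ex, a < H ∧ ∃ (p : ℤ) (q : ℕ), 2 ≤ q ∧
      (q : ℝ) ≤ (H : ℝ) ^ κ ∧ |(a : ℝ) * ξ + β - (p : ℝ) / q| ≤
        c / ((q : ℝ) ^ 2 * Real.log q ^ (1 + ε))) → (Ex.card : ℝ) ≤ η * H := by
  classical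
  set σ : ℝ := (1 - κ) / 16 with hσdef
  have hσ : 0 < σ := by rw [hσdef]; linarith
  have hσ1 : σ < 1 := by rw [hσdef]; linarith
  obtain ⟨c0, hc0, hr⟩ := hroth σ hσ
  obtain ⟨Cd, hCd0, hCd⟩ := Pool.Agent.TH42.LA.divisor_bound σ hσ
  have hlog2 : 0 < Real.log 2 := Real.log_pos (by norm_num)
  set s : ℝ := 1 / (1 + σ) with hs
  set K1 : ℝ := (2 / c0) ^ s with hK1
  have hK10 : 0 < K1 := by rw [hK1]; positivity
  set K2 : ℝ := 1 + (3 : ℕ) / σ with hK2
  have hK20 : 0 < K2 := by rw [hK2]; positivity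
  set K3 : ℝ := 2 / σ with hK3
  have hK30 : 0 < K3 := by rw [hK3]; positivity
  set K' : ℝ := K3 * (8 * Cd * K2 * K1) with hK'
  filter_upwards [Pool.Agent.TH42.LA.const_le_rpow (10 * σ) (K' / (η / 2)) (by linarith),
    eventually_ge_atTop 2] with H hH1 hH2 β Ex hEx
  have hH0 : (0 : ℝ) < H := by
    have : 0 < H := by omega
    exact_mod_cast this
  have hHR1 : (1 : ℝ) ≤ H := by
    have : 1 ≤ H := by omega
    exact_mod_cast this
  have hHR2 : (2 : ℝ) ≤ H := by exact_mod_cast hH2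
  set P : ℝ := (H : ℝ) ^ σ with hP
  have hP1 : 1 ≤ P := Real.one_le_rpow hHR1 hσ.le
  have hP0 : 0 < P := by linarith
  set J : ℕ := Nat.log 2 ⌊(H : ℝ) ^ κ⌋₊ with hJ
  have hfl : ⌊(H : ℝ) ^ κ⌋₊ ≠ 0 := by
    have h1 : (1 : ℝ) ≤ (H : ℝ) ^ κ := Real.one_le_rpow hHR1 hκ0.le
    have h2 : 1 ≤ ⌊(H : ℝ) ^ κ⌋₊ := Nat.le_floor (by simpa using h1)
    omega
  have h2J : (2 : ℝ) ^ J ≤ (H : ℝ) ^ κ := by
    have h1 : 2 ^ J ≤ ⌊(H : ℝ) ^ κ⌋₊ := Nat.pow_log_le_self 2 hfl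
    have h2 : ((2 ^ J : ℕ) : ℝ) ≤ (⌊(H : ℝ) ^ κ⌋₊ : ℝ) := by exact_mod_cast h1
    push_cast at h2
    exact h2.trans (Nat.floor_le (by positivity))
  have hκH : (H : ℝ) ^ κ ≤ H := by
    calc (H : ℝ) ^ κ ≤ (H : ℝ) ^ (1 : ℝ) := Real.rpow_le_rpow_of_exponent_le hHR1 hκ.le
      _ = H := Real.rpow_one _
  have hJle : (J : ℝ) ≤ K3 * P := by
    have h1 : (J : ℝ) * Real.log 2 ≤ Real.log H := by
      rw [← Real.log_pow]
      exact Real.log_le_log (by positivity) (h2J.trans hκH)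
    have h2 : Real.log H ≤ P / σ := Real.log_le_rpow_div hH0.le hσ
    have h3 := Real.log_two_gt_d9
    have h4 : (0 : ℝ) ≤ J := Nat.cast_nonneg J
    have h5 : K3 * P = 2 * (P / σ) := by rw [hK3]; ring
    rw [h5]
    nlinarith
  set Ej : ℕ → Finset ℕ := fun j => Ex.filter (fun a : ℕ => ∃ (p : ℤ) (q : ℕ),
    2 ^ j ≤ q ∧ q < 2 * 2 ^ j ∧ |(a : ℝ) * ξ + β - (p : ℝ) / q| ≤
      c / (((2 ^ j : ℕ) : ℝ) ^ 2 * ((j : ℝ) * Real.log 2) ^ (1 + ε))) with hEj
  have hsub : Ex ⊆ (Icc 1 J).biUnion Ej := by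
    intro a ha
    obtain ⟨haH, p, q, hq2, hqκ, hle⟩ := hEx a ha
    rw [mem_biUnion]
    have hq0 : q ≠ 0 := by omega
    refine ⟨Nat.log 2 q, ?_, ?_⟩
    · rw [mem_Icc]
      refine ⟨Nat.log_pos (by norm_num) hq2, Nat.log_mono_right (Nat.le_floor hqκ)⟩
    · simp only [hEj]
      rw [mem_filter]
      refine ⟨ha, p, q, Nat.pow_log_le_self 2 hq0, ?_, hle.trans ?_⟩
      · have := Nat.lt_pow_succ_log_self (b := 2) (by norm_num) q
        rw [pow_succ] at this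
        omega
      · have h1 : ((2 ^ (Nat.log 2 q) : ℕ) : ℝ) ≤ q := by
          exact_mod_cast Nat.pow_log_le_self 2 hq0
        have h2 : ((Nat.log 2 q : ℕ) : ℝ) * Real.log 2 ≤ Real.log q := by
          rw [← Real.log_pow]
          apply Real.log_le_log (by positivity)
          push_cast at h1
          exact h1
        have h3 : 1 ≤ Nat.log 2 q := Nat.log_pos (by norm_num) hq2
        have h4 : (0 : ℝ) < (Nat.log 2 q : ℕ) := by exact_mod_cast h3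
        apply div_le_div_of_nonneg_left hc.le (by positivity)
        refine mul_le_mul (pow_le_pow_left₀ (by positivity) h1 2) ?_ (by positivity)
          (by positivity)
        exact Real.rpow_le_rpow (by positivity) h2 (by linarith)
  have hcardj : ∀ j ∈ Icc 1 J, ((Ej j).card : ℝ) ≤
      16 * c * (1 / ((j : ℝ) * Real.log 2) ^ (1 + ε)) * H +
        8 * Cd * K2 * K1 * (H : ℝ) ^ (κ + 5 * σ) := by
    intro j hj
    rw [mem_Icc] at hj
    have hj0 : (0 : ℝ) < j := by exact_mod_cast hj.1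
    set L : ℝ := ((j : ℝ) * Real.log 2) ^ (1 + ε) with hL
    have hL0 : 0 < L := by rw [hL]; positivity
    have hQ0 : (0 : ℝ) < ((2 ^ j : ℕ) : ℝ) := by positivity
    have hQκ : ((2 ^ j : ℕ) : ℝ) ≤ (H : ℝ) ^ κ := by
      refine le_trans ?_ h2J
      push_cast
      exact pow_le_pow_right₀ (by norm_num) hj.2
    have hQH : ((2 * 2 ^ j * H : ℕ) : ℝ) ≤ (H : ℝ) ^ 3 := by
      push_cast
      push_cast at hQκ
      have h1 : (2 : ℝ) ^ j ≤ H := hQκ.trans hκH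
      have h2 : (0 : ℝ) < 2 ^ j := by positivity
      nlinarith [mul_le_mul h1 hHR2 (by norm_num) hH0.le, mul_pos hH0 hH0]
    have hD : ∀ n : ℕ, 1 ≤ n → n ≤ 2 * 2 ^ j * H → (n.divisors.card : ℝ) ≤ Cd * P ^ 3 := by
      intro n hn1 hn
      refine (hCd n (by omega)).trans (mul_le_mul_of_nonneg_left ?_ hCd0.le)
      have h1 : (n : ℝ) ≤ (H : ℝ) ^ 3 := by
        have : (n : ℝ) ≤ ((2 * 2 ^ j * H : ℕ) : ℝ) := by exact_mod_cast hn
        exact this.trans hQH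
      calc (n : ℝ) ^ σ ≤ ((H : ℝ) ^ 3) ^ σ := Real.rpow_le_rpow (Nat.cast_nonneg n) h1 hσ.le
        _ = P ^ 3 := by
          rw [hP, ← Real.rpow_natCast, ← Real.rpow_natCast, ← Real.rpow_mul hH0.le,
            ← Real.rpow_mul hH0.le, mul_comm]
    have h1 := ap_scale ξ σ c0 hσ hc0 hr β H (2 ^ j) (by omega) Nat.one_le_two_pow
      (c / (((2 ^ j : ℕ) : ℝ) ^ 2 * L)) (by positivity) (Cd * P ^ 3) (by positivity) hD (Ej j) (by
        intro a ha
        simp only [hEj] at ha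
        rw [mem_filter] at ha
        exact ⟨(hEx a ha.1).1, ha.2⟩)
    refine h1.trans (add_le_add (le_of_eq ?_) ?_)
    · field_simp
    · have h2 : 1 + Real.log ((2 * 2 ^ j * H : ℕ) : ℝ) ≤ K2 * P := by
        apply log_bound σ hσ H hHR1 _ _ 3 hQH
        exact_mod_cast Nat.mul_pos (by positivity) (by omega : 0 < H)
      have h3 : (2 / (c0 * H)) ^ (1 / (1 + σ)) ≤ K1 * (P * (H : ℝ)⁻¹) := by
        have e1 : 2 / (c0 * H) = (2 / c0) * (H : ℝ)⁻¹ := by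
          field_simp
        rw [e1, Real.mul_rpow (by positivity) (by positivity)]
        refine mul_le_mul_of_nonneg_left ?_ hK10.le
        rw [Real.inv_rpow hH0.le, hP, ← Real.rpow_neg hH0.le, ← Real.rpow_neg_one (H : ℝ),
          ← Real.rpow_add hH0]
        apply Real.rpow_le_rpow_of_exponent_le hHR1
        have h4 : 1 - σ ≤ 1 / (1 + σ) := by
          rw [le_div_iff₀ (by linarith)]
          nlinarith
        linarith
      have h4 : ((2 * 2 ^ j : ℕ) : ℝ) ≤ 2 * (H : ℝ) ^ κ := by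
        push_cast
        push_cast at hQκ
        linarith
      have hlog0 : 0 ≤ Real.log ((2 * 2 ^ j * H : ℕ) : ℝ) := Real.log_natCast_nonneg _
      calc 4 * (H : ℝ) * (((2 * 2 ^ j : ℕ) : ℝ) * (Cd * P ^ 3) *
            (1 + Real.log ((2 * 2 ^ j * H : ℕ) : ℝ)) * (2 / (c0 * H)) ^ (1 / (1 + σ)))
          ≤ 4 * (H : ℝ) * ((2 * (H : ℝ) ^ κ) * (Cd * P ^ 3) * (K2 * P) *
            (K1 * (P * (H : ℝ)⁻¹))) := by
            refine mul_le_mul_of_nonneg_left ?_ (by positivity)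
            refine mul_le_mul ?_ h3 (by positivity) (by positivity)
            refine mul_le_mul ?_ h2 (by linarith) (by positivity)
            exact mul_le_mul_of_nonneg_right h4 (by positivity)
        _ = 8 * Cd * K2 * K1 * ((H : ℝ) ^ κ * (P * P * P * P * P)) * (H * (H : ℝ)⁻¹) := by ring
        _ = 8 * Cd * K2 * K1 * (H : ℝ) ^ (κ + 5 * σ) := by
            rw [mul_inv_cancel₀ hH0.ne', mul_one, hP, ← Real.rpow_add hH0, ← Real.rpow_add hH0,
              ← Real.rpow_add hH0, ← Real.rpow_add hH0, ← Real.rpow_add hH0]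
            congr 2
            ring
  have hcard : (Ex.card : ℝ) ≤ ∑ j ∈ Icc 1 J, ((Ej j).card : ℝ) := by
    exact_mod_cast (Finset.card_le_card hsub).trans Finset.card_biUnion_le
  refine hcard.trans ((Finset.sum_le_sum hcardj).trans ?_)
  rw [Finset.sum_add_distrib, ← Finset.sum_mul, ← Finset.mul_sum, Finset.sum_const, nsmul_eq_mul,
    Nat.card_Icc, Nat.add_sub_cancel]
  have hZ : ∑ j ∈ Icc 1 J, 1 / ((j : ℝ) * Real.log 2) ^ (1 + ε) ≤
      ∑' n : ℕ, 1 / ((n : ℝ) * Real.log 2) ^ (1 + ε) :=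
    (Pool.Agent.TH42.LD.tail_summable ε hε).sum_le_tsum _ (fun n _ => by positivity)
  have hmain : 16 * c * (∑ j ∈ Icc 1 J, 1 / ((j : ℝ) * Real.log 2) ^ (1 + ε)) * H ≤
      η / 2 * H := by
    refine mul_le_mul_of_nonneg_right ?_ hH0.le
    exact (mul_le_mul_of_nonneg_left hZ (by positivity)).trans hc2
  have hsec : (J : ℝ) * (8 * Cd * K2 * K1 * (H : ℝ) ^ (κ + 5 * σ)) ≤ η / 2 * H := by
    calc (J : ℝ) * (8 * Cd * K2 * K1 * (H : ℝ) ^ (κ + 5 * σ))
        ≤ (K3 * P) * (8 * Cd * K2 * K1 * (H : ℝ) ^ (κ + 5 * σ)) :=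
          mul_le_mul_of_nonneg_right hJle (by positivity)
      _ = K' * (P * (H : ℝ) ^ (κ + 5 * σ)) := by
          rw [hK']
          ring
      _ = K' * (H : ℝ) ^ (1 - 10 * σ) := by
          rw [hP, ← Real.rpow_add hH0]
          congr 2
          rw [hσdef]
          ring
      _ ≤ (η / 2 * (H : ℝ) ^ (10 * σ)) * (H : ℝ) ^ (1 - 10 * σ) := by
          refine mul_le_mul_of_nonneg_right ?_ (by positivity)
          rw [div_le_iff₀ (by positivity)] at hH1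
          linarith
      _ = η / 2 * H := by
          rw [mul_assoc, ← Real.rpow_add hH0]
          norm_num
  linarith

end Pool.Agent.R366.LG
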