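import Pool.Agent.TH42.LD.C

/-!
# Reciprocal sums over multiples with small values, and an inhomogeneous count
-/

set_option autoImplicit false

namespace Pool.Agent.R366.LG

open Finset

/-- spaced sets have small reciprocal sums -/
theorem spaced_sum (S : ℝ) (hS : 1 ≤ S) (N : ℕ) (B : Finset ℕ)
    (h1 : ∀ n ∈ B, n ≤ N ∧ S ≤ n)
    (h2 : ∀ n ∈ B, ∀ m ∈ B, n < m → S ≤ (m : ℝ) - n) :
    ∑ n ∈ B, (1 : ℝ) / n ≤ (1 + Real.log N) / S := by
  classical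
  have hS0 : 0 < S := by linarith
  set f : ℕ → ℕ := fun n => ⌊(n : ℝ) / S⌋₊ with hf
  have hf1 : ∀ n ∈ B, 1 ≤ f n := by
    intro n hn
    simp only [hf]
    rw [Nat.one_le_floor_iff, le_div_iff₀ hS0, one_mul]
    exact (h1 n hn).2
  have hfN : ∀ n ∈ B, f n ≤ N := by
    intro n hn
    simp only [hf]
    refine Nat.floor_le_of_le ?_
    rw [div_le_iff₀ hS0]
    have h3 : (n : ℝ) ≤ N := by exact_mod_cast (h1 n hn).1
    have h4 : (0 : ℝ) ≤ N := Nat.cast_nonneg N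
    nlinarith
  have hlt : ∀ n ∈ B, ∀ m ∈ B, n < m → f n < f m := by
    intro n hn m hm hnm
    have h3 := h2 n hn m hm hnm
    simp only [hf]
    have h4 : (⌊(n : ℝ) / S⌋₊ : ℝ) ≤ (n : ℝ) / S := Nat.floor_le (by positivity)
    apply Nat.lt_of_succ_le
    apply Nat.le_floor
    push_cast
    have h5 : (n : ℝ) / S + 1 ≤ (m : ℝ) / S := by
      rw [div_add_one hS0.ne', div_le_div_iff_of_pos_right hS0]
      linarith
    linarith
  have hinj : Set.InjOn f (B : Set ℕ) := by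
    intro n hn m hm h
    rcases lt_trichotomy n m with h3 | h3 | h3
    · exact absurd h (hlt n hn m hm h3).ne
    · exact h3
    · exact absurd h.symm (hlt m hm n hn h3).ne
  have hstep : ∑ n ∈ B, (1 : ℝ) / n ≤ ∑ n ∈ B, (1 / S) * (1 / ((f n : ℕ) : ℝ)) := by
    refine Finset.sum_le_sum fun n hn => ?_
    have h3 : (0 : ℝ) < (f n : ℕ) := by exact_mod_cast hf1 n hn
    rw [one_div_mul_one_div]
    apply one_div_le_one_div_of_le (by positivity)
    have h4 : ((f n : ℕ) : ℝ) ≤ (n : ℝ) / S := Nat.floor_le (by positivity)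
    rw [le_div_iff₀ hS0] at h4
    linarith
  refine hstep.trans ?_
  rw [← Finset.mul_sum]
  have himg : ∑ n ∈ B, (1 : ℝ) / ((f n : ℕ) : ℝ) = ∑ j ∈ B.image f, (1 : ℝ) / (j : ℝ) := by
    rw [Finset.sum_image hinj]
  rw [himg]
  have hle : ∑ j ∈ B.image f, (1 : ℝ) / (j : ℝ) ≤ ∑ j ∈ Icc 1 N, (1 : ℝ) / (j : ℝ) := by
    apply Finset.sum_le_sum_of_subset_of_nonneg
    · intro j hj
      rw [mem_image] at hj
      obtain ⟨n, hn, rfl⟩ := hj
      rw [mem_Icc]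
      exact ⟨hf1 n hn, hfN n hn⟩
    · intro j _ _
      positivity
  have hharm : ∑ j ∈ Icc 1 N, (1 : ℝ) / (j : ℝ) ≤ 1 + Real.log N := by
    have h3 := harmonic_le_one_add_log N
    rw [harmonic_eq_sum_Icc] at h3
    push_cast at h3
    simpa [one_div] using h3
  rw [div_eq_mul_one_div (1 + Real.log N) S, mul_comm (1 + Real.log N)]
  exact mul_le_mul_of_nonneg_left (hle.trans hharm) (by positivity)

/-- the sum of the reciprocals of the first small multipliers -/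
theorem inv_sum (ξ τ c : ℝ) (hτ : 0 < τ) (hc : 0 < c)
    (hroth : ∀ q : ℕ, 1 ≤ q → ∀ p : ℤ, c ≤ (q : ℝ) ^ (1 + τ) * |q * ξ - p|)
    (M Y Z : ℕ) (hZ : 1 ≤ Z) (D : ℝ) (hD0 : 0 ≤ D)
    (hD : ∀ n : ℕ, 1 ≤ n → n ≤ M * Y → (n.divisors.card : ℝ) ≤ D)
    (T : Finset ℕ) (W : ℕ → ℕ) (hT : ∀ m ∈ T, 1 ≤ m ∧ m ≤ M ∧ 1 ≤ W m ∧ W m ≤ Y ∧
      ∃ l : ℤ, |((W m : ℕ) : ℝ) * ((m : ℝ) * ξ) - l| < 1 / (Z : ℝ)) :
    ∑ m ∈ T, (1 : ℝ) / ((W m : ℕ) : ℝ) ≤
      M * D * (1 + Real.log ((M * Y : ℕ) : ℝ)) * (2 / (c * Z)) ^ (1 / (1 + τ)) := by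
  classical
  have hZ0 : (0 : ℝ) < Z := by exact_mod_cast hZ
  have hlog0 : 0 ≤ Real.log ((M * Y : ℕ) : ℝ) := Real.log_natCast_nonneg _
  set s : ℝ := 1 / (1 + τ) with hs
  have hs0 : 0 < s := by rw [hs]; positivity
  set S0 : ℝ := (c * Z / 2) ^ s with hS0
  have hS00 : 0 < S0 := by rw [hS0]; positivity
  set S : ℝ := max 1 S0 with hS
  have hS1 : 1 ≤ S := le_max_left _ _
  have hSp : 0 < S := by linarith
  have hinv : 1 / S ≤ (2 / (c * Z)) ^ s := by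
    have h1 : 1 / S ≤ 1 / S0 := one_div_le_one_div_of_le hS00 (le_max_right _ _)
    refine h1.trans (le_of_eq ?_)
    rw [hS0, one_div, ← Real.inv_rpow (by positivity), inv_div]
  set B : Finset ℕ := T.image (fun m => m * W m) with hB
  have hBmem : ∀ n ∈ B, 1 ≤ n ∧ n ≤ M * Y ∧ ∃ l : ℤ, |(n : ℝ) * ξ - l| < 1 / (Z : ℝ) := by
    intro n hn
    rw [hB, mem_image] at hn
    obtain ⟨m, hm, rfl⟩ := hn
    obtain ⟨h1, h2, h3, h4, l, hl⟩ := hT m hm
    refine ⟨Nat.mul_pos h1 h3, Nat.mul_le_mul h2 h4, l, ?_⟩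
    have e : ((m * W m : ℕ) : ℝ) * ξ = ((W m : ℕ) : ℝ) * ((m : ℝ) * ξ) := by
      push_cast
      ring
    rw [e]
    exact hl
  -- spacing
  have hspace : ∀ (r : ℕ), 1 ≤ r → ∀ l : ℤ, |(r : ℝ) * ξ - l| < 2 / (Z : ℝ) → S ≤ r := by
    intro r hr l hl
    have hr1 : (1 : ℝ) ≤ r := by exact_mod_cast hr
    have hr0 : (0 : ℝ) < r := by linarith
    refine max_le hr1 ?_
    have h1 := hroth r hr l
    have h2 : c ≤ (r : ℝ) ^ (1 + τ) * (2 / Z) :=
      h1.trans (mul_le_mul_of_nonneg_left hl.le (by positivity))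
    have h3 : c * Z / 2 ≤ (r : ℝ) ^ (1 + τ) := by
      rw [mul_div_assoc', le_div_iff₀ hZ0] at h2
      linarith
    calc S0 ≤ ((r : ℝ) ^ (1 + τ)) ^ s := Real.rpow_le_rpow (by positivity) h3 hs0.le
      _ = r := by
        rw [← Real.rpow_mul hr0.le, hs, mul_one_div, div_self (by positivity), Real.rpow_one]
  have hsum : ∑ n ∈ B, (1 : ℝ) / n ≤ (1 + Real.log ((M * Y : ℕ) : ℝ)) / S := by
    apply spaced_sum S hS1
    · intro n hn
      obtain ⟨h1, h2, l, hl⟩ := hBmem n hn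
      refine ⟨h2, hspace n h1 l (hl.trans ?_)⟩
      exact div_lt_div_of_pos_right (by norm_num) hZ0
    · intro n hn m hm hnm
      obtain ⟨h1, h2, l, hl⟩ := hBmem n hn
      obtain ⟨h1', h2', l', hl'⟩ := hBmem m hm
      have h3 : |((m - n : ℕ) : ℝ) * ξ - ((l' - l : ℤ) : ℝ)| < 2 / (Z : ℝ) := by
        rw [Nat.cast_sub hnm.le]
        push_cast
        have e : ((m : ℝ) - n) * ξ - ((l' : ℝ) - l) = ((m : ℝ) * ξ - l') - ((n : ℝ) * ξ - l) := by
          ring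
        rw [e]
        have h5 := abs_sub ((m : ℝ) * ξ - l') ((n : ℝ) * ξ - l)
        have h6 : 2 / (Z : ℝ) = 1 / Z + 1 / Z := by ring
        linarith
      have h4 := hspace (m - n) (by omega) (l' - l) h3
      rw [Nat.cast_sub hnm.le] at h4
      exact h4
  have hterm : ∑ m ∈ T, (1 : ℝ) / ((W m : ℕ) : ℝ) ≤
      ∑ m ∈ T, (M : ℝ) * (1 / ((m * W m : ℕ) : ℝ)) := by
    refine Finset.sum_le_sum fun m hm => ?_
    obtain ⟨h1, h2, h3, h4, _⟩ := hT m hm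
    have h5 : (0 : ℝ) < m := by exact_mod_cast h1
    have h6 : (0 : ℝ) < (W m : ℕ) := by exact_mod_cast h3
    have h7 : (m : ℝ) ≤ M := by exact_mod_cast h2
    push_cast
    rw [mul_one_div, div_le_div_iff₀ h6 (by positivity), one_mul]
    exact mul_le_mul_of_nonneg_right h7 h6.le
  have hcomp : ∑ m ∈ T, (M : ℝ) * (1 / ((m * W m : ℕ) : ℝ)) ≤
      ∑ n ∈ B, D * ((M : ℝ) * (1 / (n : ℝ))) := by
    rw [Finset.sum_comp (fun n : ℕ => (M : ℝ) * (1 / (n : ℝ))) (fun m => m * W m)]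
    refine Finset.sum_le_sum fun n hn => ?_
    rw [nsmul_eq_mul]
    refine mul_le_mul_of_nonneg_right ?_ (by positivity)
    obtain ⟨h1, h2, _⟩ := hBmem n hn
    refine le_trans ?_ (hD n h1 h2)
    have h3 : (T.filter (fun m => m * W m = n)).card ≤ n.divisors.card := by
      apply Finset.card_le_card
      intro m hm
      rw [mem_filter] at hm
      rw [Nat.mem_divisors]
      exact ⟨⟨W m, hm.2.symm⟩, by omega⟩
    exact_mod_cast h3
  refine hterm.trans (hcomp.trans ?_)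
  rw [← Finset.mul_sum, ← Finset.mul_sum]
  have hM0 : (0 : ℝ) ≤ M := Nat.cast_nonneg M
  calc D * ((M : ℝ) * ∑ n ∈ B, (1 : ℝ) / n)
      ≤ D * ((M : ℝ) * ((1 + Real.log ((M * Y : ℕ) : ℝ)) / S)) :=
        mul_le_mul_of_nonneg_left (mul_le_mul_of_nonneg_left hsum hM0) hD0
    _ = M * D * (1 + Real.log ((M * Y : ℕ) : ℝ)) * (1 / S) := by ring
    _ ≤ _ := mul_le_mul_of_nonneg_left hinv (by positivity)

/-- the count of values near the integers, inhomogeneous form -/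
theorem inhom_count (θ φ0 : ℝ) (n W : ℕ) (hW1 : 1 ≤ W) (hWn : W ≤ n)
    (hsep : ∀ r : ℕ, 1 ≤ r → r < W → ∀ l : ℤ, 1 / (2 * (W : ℝ)) ≤ |(r : ℝ) * θ - l|)
    (δ : ℝ) (hδ : 0 ≤ δ) (S : Finset (ℕ × ℤ))
    (hS : ∀ z ∈ S, z.1 ≤ n ∧ |(z.1 : ℝ) * θ + φ0 - z.2| ≤ δ) :
    (S.card : ℝ) ≤ 8 * n * δ + 4 * (n / W) := by
  classical
  have hW0 : (0 : ℝ) < W := by exact_mod_cast hW1
  have hWn' : (W : ℝ) ≤ n := by exact_mod_cast hWn
  set φ : ℕ × ℤ → ℕ × ℤ := fun z =>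
    (z.1 / W, ⌊2 * (W : ℝ) * ((z.1 : ℝ) * θ + φ0 - z.2)⌋) with hφ
  have hinj : Set.InjOn φ (S : Set (ℕ × ℤ)) := by
    have key : ∀ z z' : ℕ × ℤ, φ z = φ z' → z'.1 ≤ z.1 → z = z' := by
      intro z z' h hle
      simp only [hφ, Prod.mk.injEq] at h
      obtain ⟨h1, h2⟩ := h
      have h3 := Int.abs_sub_lt_one_of_floor_eq_floor h2
      have h4 : 2 * (W : ℝ) * ((z.1 : ℝ) * θ + φ0 - z.2) -
          2 * (W : ℝ) * ((z'.1 : ℝ) * θ + φ0 - z'.2) =
          2 * W * (((z.1 - z'.1 : ℕ) : ℝ) * θ - ((z.2 - z'.2 : ℤ) : ℝ)) := by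
        rw [Nat.cast_sub hle]
        push_cast
        ring
      rw [h4, abs_mul, abs_of_pos (by positivity : (0 : ℝ) < 2 * W)] at h3
      rcases Nat.eq_zero_or_pos (z.1 - z'.1) with h5 | h5
      · rw [h5] at h3
        have h6 : z.2 - z'.2 = 0 := by
          by_contra h7
          have h8 : (1 : ℝ) ≤ |((z.2 - z'.2 : ℤ) : ℝ)| := by exact_mod_cast Int.one_le_abs h7
          rw [Nat.cast_zero, zero_mul, zero_sub, abs_neg] at h3
          have h9 : (1 : ℝ) ≤ W := by exact_mod_cast hW1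
          nlinarith
        exact Prod.ext (by omega) (by omega)
      · exfalso
        have hlt : z.1 - z'.1 < W := by
          have h6 := Nat.div_add_mod z.1 W
          have h7 := Nat.div_add_mod z'.1 W
          have h8 := Nat.mod_lt z.1 hW1
          rw [h1] at h6
          omega
        have h6 := hsep (z.1 - z'.1) h5 hlt (z.2 - z'.2)
        rw [div_le_iff₀ (by positivity)] at h6
        linarith
    intro z _ z' _ h
    rcases le_total z'.1 z.1 with hle | hle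
    · exact key z z' h hle
    · exact (key z' z h.symm hle).symm
  have hmaps : ∀ z ∈ S, φ z ∈ range (n / W + 1) ×ˢ Icc ⌊-(2 * W * δ)⌋ ⌊2 * W * δ⌋ := by
    intro z hz
    obtain ⟨h1, h2⟩ := hS z hz
    rw [abs_le] at h2
    rw [mem_product, mem_range, mem_Icc]
    simp only [hφ]
    refine ⟨Nat.lt_succ_of_le (Nat.div_le_div_right h1), Int.floor_le_floor ?_,
      Int.floor_le_floor ?_⟩
    · have := mul_le_mul_of_nonneg_left h2.1 (by positivity : (0 : ℝ) ≤ 2 * W)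
      linarith
    · exact mul_le_mul_of_nonneg_left h2.2 (by positivity)
  have hcard := Finset.card_le_card_of_injOn φ hmaps hinj
  rw [card_product, card_range, Int.card_Icc] at hcard
  have h1 : (((n / W + 1 : ℕ)) : ℝ) ≤ 2 * (n / W) := by
    have h2 : ((n / W : ℕ) : ℝ) ≤ (n : ℝ) / W := Nat.cast_div_le
    have h3 : (1 : ℝ) ≤ (n : ℝ) / W := by
      rw [le_div_iff₀ hW0]
      linarith
    push_cast
    linarith
  have h2 : (((⌊2 * W * δ⌋ + 1 - ⌊-(2 * W * δ)⌋).toNat : ℕ) : ℝ) ≤ 4 * W * δ + 2 := by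
    have h3 : ⌊-(2 * W * δ)⌋ ≤ ⌊2 * W * δ⌋ := Int.floor_le_floor (by
      have : 0 ≤ 2 * W * δ := by positivity
      linarith)
    have h4 : (((⌊2 * W * δ⌋ + 1 - ⌊-(2 * W * δ)⌋).toNat : ℕ) : ℝ) =
        (⌊2 * W * δ⌋ : ℝ) + 1 - ⌊-(2 * W * δ)⌋ := by
      have h5 : (((⌊2 * W * δ⌋ + 1 - ⌊-(2 * W * δ)⌋).toNat : ℕ) : ℤ) =
          ⌊2 * W * δ⌋ + 1 - ⌊-(2 * W * δ)⌋ := Int.toNat_of_nonneg (by omega)
      exact_mod_cast h5
    rw [h4]
    have h5 := Int.floor_le (2 * W * δ)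
    have h6 := Int.lt_floor_add_one (-(2 * W * δ))
    linarith
  calc (S.card : ℝ) ≤ (((n / W + 1) * (⌊2 * W * δ⌋ + 1 - ⌊-(2 * W * δ)⌋).toNat : ℕ) : ℝ) := by
        exact_mod_cast hcard
    _ = ((n / W + 1 : ℕ) : ℝ) * (((⌊2 * W * δ⌋ + 1 - ⌊-(2 * W * δ)⌋).toNat : ℕ) : ℝ) := by
        push_cast
        ring
    _ ≤ (2 * (n / W)) * (4 * W * δ + 2) := mul_le_mul h1 h2 (by positivity) (by positivity)
    _ = 8 * n * δ + 4 * (n / W) := by
        field_simp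
        ring

end Pool.Agent.R366.LG
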