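import Pool.Agent.Results.MP_c307ca_nt.AlmostAllToHeight

/-!
# Exceptional fibres of a polynomial
-/

set_option autoImplicit false

namespace Pool.Agent.R366.LG

open Finset Filter Polynomial

open Pool.Agent.Results.MP_c307ca_nt.AlmostAllToHeight (w w_pos w_le w_summable w_eq)

/-- a polynomial grows like its leading term -/
theorem growth (g : ℤ[X]) (hd : 1 ≤ g.natDegree) :
    ∃ K : ℝ, 1 ≤ K ∧ ∀ x : ℝ, |x| ^ g.natDegree ≤ K * (1 + |aeval x g|) := by
  obtain ⟨d, hdd⟩ : ∃ d, g.natDegree = d := ⟨_, rfl⟩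
  rw [hdd] at hd ⊢
  set S : ℝ := ∑ i ∈ range d, |((g.coeff i : ℤ) : ℝ)| with hS
  have hS0 : 0 ≤ S := Finset.sum_nonneg fun i _ => abs_nonneg _
  have hT : (1 : ℝ) ≤ (2 * S + 1) ^ d := one_le_pow₀ (by linarith)
  refine ⟨2 + (2 * S + 1) ^ d, by linarith, fun x => ?_⟩
  rcases le_or_gt |x| (2 * S + 1) with hx | hx
  · have h1 : |x| ^ d ≤ (2 * S + 1) ^ d := pow_le_pow_left₀ (abs_nonneg x) hx d
    have h2 : 0 ≤ |aeval x g| := abs_nonneg _
    nlinarith
  · have hx1 : 1 ≤ |x| := by linarith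
    have hx0 : 0 < |x| := by linarith
    have hev : aeval x g = ∑ i ∈ range d, ((g.coeff i : ℤ) : ℝ) * x ^ i +
        ((g.coeff d : ℤ) : ℝ) * x ^ d := by
      rw [Polynomial.aeval_eq_sum_range, hdd, Finset.sum_range_succ]
      simp [zsmul_eq_mul]
    have hlead : (1 : ℝ) ≤ |((g.coeff d : ℤ) : ℝ)| := by
      have h1 : g.coeff d ≠ 0 := by
        rw [← hdd, Polynomial.coeff_natDegree, Polynomial.leadingCoeff_ne_zero]
        intro h0
        rw [h0, Polynomial.natDegree_zero] at hdd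
        omega
      exact_mod_cast Int.one_le_abs h1
    have hlow : |∑ i ∈ range d, ((g.coeff i : ℤ) : ℝ) * x ^ i| ≤ S * |x| ^ (d - 1) := by
      rw [hS, Finset.sum_mul]
      refine (Finset.abs_sum_le_sum_abs _ _).trans (Finset.sum_le_sum fun i hi => ?_)
      rw [mem_range] at hi
      rw [abs_mul, abs_pow]
      exact mul_le_mul_of_nonneg_left (pow_le_pow_right₀ hx1 (by omega)) (abs_nonneg _)
    have hpow : |x| ^ d = |x| * |x| ^ (d - 1) := by
      rw [← pow_succ']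
      congr 1
      omega
    have hP : 0 < |x| ^ (d - 1) := by positivity
    have h1 : |x| ^ d ≤ |((g.coeff d : ℤ) : ℝ) * x ^ d| := by
      rw [abs_mul, abs_pow]
      have : 0 ≤ |x| ^ d := by positivity
      nlinarith
    have h2 : ((g.coeff d : ℤ) : ℝ) * x ^ d =
        aeval x g - ∑ i ∈ range d, ((g.coeff i : ℤ) : ℝ) * x ^ i := by
      rw [hev]
      ring
    have h3 : |((g.coeff d : ℤ) : ℝ) * x ^ d| ≤ |aeval x g| + S * |x| ^ (d - 1) := by
      rw [h2]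
      exact (abs_sub _ _).trans (by linarith)
    have h4 : S * |x| ^ (d - 1) ≤ |x| ^ d / 2 := by
      rw [hpow]
      nlinarith
    have h5 : |x| ^ d ≤ 2 * |aeval x g| := by linarith
    have h6 : 0 ≤ |aeval x g| := abs_nonneg _
    nlinarith

/-- a polynomial is Lipschitz on bounded intervals -/
theorem lip (g : ℤ[X]) :
    ∃ K : ℝ, 1 ≤ K ∧ ∀ M x y : ℝ, 1 ≤ M → |x| ≤ M → |y| ≤ M →
      |aeval x g - aeval y g| ≤ K * M ^ (g.natDegree - 1) * |x - y| := by
  obtain ⟨d, hdd⟩ : ∃ d, g.natDegree = d := ⟨_, rfl⟩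
  rw [hdd]
  set S : ℝ := ∑ i ∈ range (d + 1), |((g.coeff i : ℤ) : ℝ)| * i with hS
  have hS0 : 0 ≤ S := Finset.sum_nonneg fun i _ => by positivity
  refine ⟨1 + S, by linarith, fun M x y hM hx hy => ?_⟩
  have hev : ∀ z : ℝ, aeval z g = ∑ i ∈ range (d + 1), ((g.coeff i : ℤ) : ℝ) * z ^ i := by
    intro z
    rw [Polynomial.aeval_eq_sum_range, hdd]
    simp [zsmul_eq_mul]
  rw [hev, hev, ← Finset.sum_sub_distrib]
  refine (Finset.abs_sum_le_sum_abs _ _).trans ?_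
  have hMd : (0 : ℝ) ≤ M ^ (d - 1) := by positivity
  have hstep : ∀ i ∈ range (d + 1), |((g.coeff i : ℤ) : ℝ) * x ^ i -
      ((g.coeff i : ℤ) : ℝ) * y ^ i| ≤ (|((g.coeff i : ℤ) : ℝ)| * i) * (M ^ (d - 1) * |x - y|) := by
    intro i hi
    rw [mem_range] at hi
    rw [← mul_sub, abs_mul, mul_assoc]
    refine mul_le_mul_of_nonneg_left ?_ (abs_nonneg _)
    refine (abs_pow_sub_pow_le x y i).trans ?_
    have h1 : max |x| |y| ^ (i - 1) ≤ M ^ (d - 1) := by
      calc max |x| |y| ^ (i - 1) ≤ M ^ (i - 1) :=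
            pow_le_pow_left₀ (le_max_of_le_left (abs_nonneg x)) (max_le hx hy) _
        _ ≤ M ^ (d - 1) := pow_le_pow_right₀ hM (by omega)
    calc |x - y| * i * max |x| |y| ^ (i - 1) ≤ |x - y| * i * M ^ (d - 1) :=
          mul_le_mul_of_nonneg_left h1 (by positivity)
      _ = i * (M ^ (d - 1) * |x - y|) := by ring
  refine (Finset.sum_le_sum hstep).trans ?_
  rw [← Finset.sum_mul, ← hS]
  have h2 : 0 ≤ M ^ (d - 1) * |x - y| := by positivity
  calc S * (M ^ (d - 1) * |x - y|) ≤ (1 + S) * (M ^ (d - 1) * |x - y|) :=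
        mul_le_mul_of_nonneg_right (by linarith) h2
    _ = (1 + S) * M ^ (d - 1) * |x - y| := by ring

/-- rational numbers of bounded denominator are spaced -/
theorem rat_space (B : ℕ) (r s : ℚ) (hr : r.den ≤ B) (hs : s.den ≤ B) (h : r < s) :
    (1 : ℝ) ≤ ((s : ℝ) - r) * (B : ℝ) ^ 2 := by
  have hrd : (0 : ℚ) < r.den := by exact_mod_cast r.den_pos
  have hsd : (0 : ℚ) < s.den := by exact_mod_cast s.den_pos
  have h1 : (s - r) * ((r.den : ℚ) * s.den) = ((s.num * r.den - r.num * s.den : ℤ) : ℚ) := by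
    have e1 : r * r.den = r.num := Rat.mul_den_eq_num r
    have e2 : s * s.den = s.num := Rat.mul_den_eq_num s
    push_cast
    rw [← e1, ← e2]
    ring
  have h2 : (0 : ℚ) < ((s.num * r.den - r.num * s.den : ℤ) : ℚ) := by
    rw [← h1]
    exact mul_pos (by linarith) (mul_pos hrd hsd)
  have h3 : (1 : ℚ) ≤ ((s.num * r.den - r.num * s.den : ℤ) : ℚ) := by
    have : (0 : ℤ) < s.num * r.den - r.num * s.den := by exact_mod_cast h2
    exact_mod_cast this
  rw [← h1] at h3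
  have h4 : (r.den : ℚ) * s.den ≤ (B : ℚ) ^ 2 := by
    have g1 : (r.den : ℚ) ≤ B := by exact_mod_cast hr
    have g2 : (s.den : ℚ) ≤ B := by exact_mod_cast hs
    rw [sq]
    exact mul_le_mul g1 g2 hsd.le (by linarith)
  have h5 : (1 : ℚ) ≤ (s - r) * (B : ℚ) ^ 2 :=
    h3.trans (mul_le_mul_of_nonneg_left h4 (by linarith))
  exact_mod_cast h5

theorem rat_count (B : ℕ) (v ρ : ℝ) (hρ : 0 ≤ ρ) (S : Finset ℚ)
    (hS : ∀ r ∈ S, r.den ≤ B ∧ |(r : ℝ) - v| ≤ ρ) :
    (S.card : ℝ) ≤ 2 * ρ * (B : ℝ) ^ 2 + 1 := by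
  classical
  set f : ℚ → ℕ := fun r => ⌊((r : ℝ) - v + ρ) * (B : ℝ) ^ 2⌋₊ with hf
  have hnn : ∀ r ∈ S, 0 ≤ ((r : ℝ) - v + ρ) * (B : ℝ) ^ 2 := by
    intro r hr
    have h1 := (abs_le.mp (hS r hr).2).1
    have : 0 ≤ (r : ℝ) - v + ρ := by linarith
    positivity
  have hlt : ∀ r ∈ S, ∀ s ∈ S, r < s → f r < f s := by
    intro r hr s hs h
    have h1 := rat_space B r s (hS r hr).1 (hS s hs).1 h
    simp only [hf]
    have h2 := Nat.floor_le (hnn r hr)
    apply Nat.lt_of_succ_le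
    apply Nat.le_floor
    push_cast
    have h3 : ((s : ℝ) - v + ρ) * (B : ℝ) ^ 2 =
        ((r : ℝ) - v + ρ) * (B : ℝ) ^ 2 + ((s : ℝ) - r) * (B : ℝ) ^ 2 := by ring
    linarith
  have hmaps : ∀ r ∈ S, f r ∈ range (⌊2 * ρ * (B : ℝ) ^ 2⌋₊ + 1) := by
    intro r hr
    rw [mem_range, Nat.lt_succ_iff]
    simp only [hf]
    apply Nat.floor_le_floor
    have h1 := (abs_le.mp (hS r hr).2).2
    exact mul_le_mul_of_nonneg_right (by linarith) (by positivity)
  have hinj : Set.InjOn f (S : Set ℚ) := by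
    intro r hr s hs h
    rcases lt_trichotomy r s with h1 | h1 | h1
    · exact absurd h (hlt r hr s hs h1).ne
    · exact h1
    · exact absurd h.symm (hlt s hs r hr h1).ne
  have hcard := Finset.card_le_card_of_injOn f hmaps hinj
  rw [card_range] at hcard
  have h1 : ((⌊2 * ρ * (B : ℝ) ^ 2⌋₊ + 1 : ℕ) : ℝ) ≤ 2 * ρ * (B : ℝ) ^ 2 + 1 := by
    push_cast
    have := Nat.floor_le (by positivity : 0 ≤ 2 * ρ * (B : ℝ) ^ 2)
    linarith
  have h2 : (S.card : ℝ) ≤ ((⌊2 * ρ * (B : ℝ) ^ 2⌋₊ + 1 : ℕ) : ℝ) := by exact_mod_cast hcard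
  linarith

/-- the count of exceptional fibres -/
theorem fib_count (g : ℤ[X]) (d : ℕ) (hd : 2 ≤ d) (K KL : ℝ) (hK : 1 ≤ K)
    (hKL : 1 ≤ KL)
    (hgr : ∀ x : ℝ, |x| ^ d ≤ K * (1 + |aeval x g|))
    (hlip : ∀ M x y : ℝ, 1 ≤ M → |x| ≤ M → |y| ≤ M →
      |aeval x g - aeval y g| ≤ KL * M ^ (d - 1) * |x - y|)
    (ε c : ℝ) (hε : 0 < ε) (hc : 0 < c) (hc1 : c ≤ Real.log 2 ^ (1 + ε))
    (A B Q : ℕ) (hA : 1 ≤ A) (R : ℝ) (hR1 : 1 ≤ R) (hR : R ^ d = 2 * K * A)
    (Ex : Finset ℚ) (hEx : ∀ r ∈ Ex, |(r : ℝ)| ≤ A ∧ r.den ≤ B ∧ ∃ α : ℝ, aeval α g = (r : ℝ) ∧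
      ∃ (p : ℤ) (q : ℕ), 2 ≤ q ∧ q ≤ Q ∧ |α - (p : ℝ) / q| ≤ c * w ε q) :
    (Ex.card : ℝ) ≤ 8 * KL * (3 * R) ^ d * c * (B : ℝ) ^ 2 * (∑' q : ℕ, (q : ℝ) * w ε q) +
      8 * R * (Q : ℝ) ^ 2 := by
  classical
  have hR0 : 0 < R := by linarith
  have hKL0 : 0 < KL := by linarith
  have hlog2 : 0 < Real.log 2 := Real.log_pos (by norm_num)
  have hA0 : (1 : ℝ) ≤ A := by exact_mod_cast hA
  have hcw : ∀ q : ℕ, c * w ε q ≤ 1 := by
    intro q
    have h1 := w_le ε hε q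
    have h2 := (w_pos ε q).le
    calc c * w ε q ≤ Real.log 2 ^ (1 + ε) * (1 / Real.log 2 ^ (1 + ε)) :=
          mul_le_mul hc1 h1 h2 (by positivity)
      _ = 1 := by
          rw [mul_one_div, div_self]
          positivity
  have hα : ∀ (r : ℚ) (α : ℝ), |(r : ℝ)| ≤ A → aeval α g = (r : ℝ) → |α| ≤ R := by
    intro r α hr hα
    have h1 := hgr α
    rw [hα] at h1
    have h2 : |α| ^ d ≤ R ^ d := by
      rw [hR]
      refine h1.trans ?_
      have h3 : 1 + |(r : ℝ)| ≤ 2 * A := by linarith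
      calc K * (1 + |(r : ℝ)|) ≤ K * (2 * A) := mul_le_mul_of_nonneg_left h3 (by linarith)
        _ = 2 * K * A := by ring
    exact (pow_le_pow_iff_left₀ (abs_nonneg α) hR0.le (by omega)).mp h2
  set ρ : ℕ → ℝ := fun q => KL * (R + 1) ^ (d - 1) * (c * w ε q) with hρ
  have hρ0 : ∀ q, 0 ≤ ρ q := by
    intro q
    have := (w_pos ε q).le
    simp only [hρ]
    positivity
  set N : ℕ → ℕ := fun q => ⌊(q : ℝ) * (R + 1)⌋₊ with hN
  set E : ℕ → ℤ → Finset ℚ := fun q p => Ex.filter (fun r =>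
    |(r : ℝ) - aeval ((p : ℝ) / q) g| ≤ ρ q) with hE
  have hsub : Ex ⊆ (Icc 2 Q).biUnion (fun q => (Icc (-(N q : ℤ)) (N q)).biUnion (E q)) := by
    intro r hr
    obtain ⟨h1, h2, α, h3, p, q, h4, h5, h6⟩ := hEx r hr
    have hq0 : (0 : ℝ) < q := by
      have : 0 < q := by omega
      exact_mod_cast this
    have hαR := hα r α h1 h3
    have h7 : |α - (p : ℝ) / q| ≤ 1 := h6.trans (hcw q)
    have hpq : |(p : ℝ) / q| ≤ R + 1 := by
      have e : (p : ℝ) / q = α - (α - (p : ℝ) / q) := by ring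
      rw [e]
      exact (abs_sub _ _).trans (by linarith)
    rw [mem_biUnion]
    refine ⟨q, mem_Icc.mpr ⟨h4, h5⟩, ?_⟩
    rw [mem_biUnion]
    refine ⟨p, ?_, ?_⟩
    · have h8 : |(p : ℝ)| ≤ (q : ℝ) * (R + 1) := by
        rw [abs_div, abs_of_pos hq0, div_le_iff₀ hq0] at hpq
        linarith
      have h9 : p.natAbs ≤ N q := by
        simp only [hN]
        apply Nat.le_floor
        rw [Nat.cast_natAbs]
        push_cast
        exact h8
      rw [mem_Icc]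
      omega
    · simp only [hE]
      rw [mem_filter]
      refine ⟨hr, ?_⟩
      rw [← h3]
      refine (hlip (R + 1) α ((p : ℝ) / q) (by linarith) (by linarith) hpq).trans ?_
      simp only [hρ]
      exact mul_le_mul_of_nonneg_left h6 (by positivity)
  have hcard : (Ex.card : ℝ) ≤ ∑ q ∈ Icc 2 Q, ∑ p ∈ Icc (-(N q : ℤ)) (N q), ((E q p).card : ℝ) := by
    have h1 : Ex.card ≤ ∑ q ∈ Icc 2 Q, ∑ p ∈ Icc (-(N q : ℤ)) (N q), (E q p).card := by
      refine (Finset.card_le_card hsub).trans (Finset.card_biUnion_le.trans ?_)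
      exact Finset.sum_le_sum fun q _ => Finset.card_biUnion_le
    exact_mod_cast h1
  have hone : ∀ q ∈ Icc 2 Q, ∑ p ∈ Icc (-(N q : ℤ)) (N q), ((E q p).card : ℝ) ≤
      8 * KL * (3 * R) ^ d * c * (B : ℝ) ^ 2 * ((q : ℝ) * w ε q) + 8 * R * q := by
    intro q hq
    rw [mem_Icc] at hq
    have hq2 : (2 : ℝ) ≤ q := by exact_mod_cast hq.1
    have hq0 : (0 : ℝ) < q := by linarith
    have h1 : ∑ p ∈ Icc (-(N q : ℤ)) (N q), ((E q p).card : ℝ) ≤
        ∑ _p ∈ Icc (-(N q : ℤ)) (N q), (2 * ρ q * (B : ℝ) ^ 2 + 1) := by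
      refine Finset.sum_le_sum fun p _ => ?_
      apply rat_count B (aeval ((p : ℝ) / q) g) (ρ q) (hρ0 q)
      intro r hr
      simp only [hE] at hr
      rw [mem_filter] at hr
      exact ⟨(hEx r hr.1).2.1, hr.2⟩
    refine h1.trans ?_
    rw [Finset.sum_const, nsmul_eq_mul, Int.card_Icc]
    have h2 : ((((N q : ℤ)) + 1 - (-(N q : ℤ))).toNat : ℝ) ≤ 8 * R * q := by
      have e : (((N q : ℤ)) + 1 - (-(N q : ℤ))).toNat = 2 * N q + 1 := by omega
      rw [e]
      push_cast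
      have h3 : ((N q : ℕ) : ℝ) ≤ (q : ℝ) * (R + 1) := Nat.floor_le (by positivity)
      nlinarith
    have h4 : 0 ≤ 2 * ρ q * (B : ℝ) ^ 2 := by
      have := hρ0 q
      positivity
    have hw0 := (w_pos ε q).le
    calc ((((N q : ℤ)) + 1 - (-(N q : ℤ))).toNat : ℝ) * (2 * ρ q * (B : ℝ) ^ 2 + 1)
        = ((((N q : ℤ)) + 1 - (-(N q : ℤ))).toNat : ℝ) * (2 * ρ q * (B : ℝ) ^ 2) +
          ((((N q : ℤ)) + 1 - (-(N q : ℤ))).toNat : ℝ) := by ring
      _ ≤ (4 * (R + 1) * q) * (2 * ρ q * (B : ℝ) ^ 2) + 8 * R * q := by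
          refine add_le_add (mul_le_mul_of_nonneg_right ?_ h4) h2
          have e : (((N q : ℤ)) + 1 - (-(N q : ℤ))).toNat = 2 * N q + 1 := by omega
          rw [e]
          push_cast
          have h3 : ((N q : ℕ) : ℝ) ≤ (q : ℝ) * (R + 1) := Nat.floor_le (by positivity)
          nlinarith
      _ = 8 * KL * ((R + 1) * (R + 1) ^ (d - 1)) * c * (B : ℝ) ^ 2 * ((q : ℝ) * w ε q) +
          8 * R * q := by
          simp only [hρ]
          ring
      _ ≤ 8 * KL * (3 * R) ^ d * c * (B : ℝ) ^ 2 * ((q : ℝ) * w ε q) + 8 * R * q := by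
          have h5 : (R + 1) * (R + 1) ^ (d - 1) ≤ (3 * R) ^ d := by
            have e : (R + 1) * (R + 1) ^ (d - 1) = (R + 1) ^ d := by
              rw [← pow_succ']
              congr 1
              omega
            rw [e]
            exact pow_le_pow_left₀ (by linarith) (by linarith) d
          have h6 : 8 * KL * ((R + 1) * (R + 1) ^ (d - 1)) * c * (B : ℝ) ^ 2 *
              ((q : ℝ) * w ε q) ≤
              8 * KL * (3 * R) ^ d * c * (B : ℝ) ^ 2 * ((q : ℝ) * w ε q) := by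
            refine mul_le_mul_of_nonneg_right ?_ (by positivity)
            refine mul_le_mul_of_nonneg_right ?_ (by positivity)
            refine mul_le_mul_of_nonneg_right ?_ hc.le
            exact mul_le_mul_of_nonneg_left h5 (by positivity)
          linarith
  refine hcard.trans ((Finset.sum_le_sum hone).trans ?_)
  rw [Finset.sum_add_distrib, ← Finset.mul_sum, ← Finset.mul_sum]
  refine add_le_add ?_ ?_
  · refine mul_le_mul_of_nonneg_left ?_ (by positivity)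
    exact (w_summable ε hε).sum_le_tsum _
      (fun q _ => mul_nonneg (Nat.cast_nonneg q) (w_pos ε q).le)
  · refine mul_le_mul_of_nonneg_left ?_ (by positivity)
    calc ∑ q ∈ Icc 2 Q, (q : ℝ) ≤ ∑ _q ∈ Icc 2 Q, (Q : ℝ) := by
          refine Finset.sum_le_sum fun q hq => ?_
          rw [mem_Icc] at hq
          exact_mod_cast hq.2
      _ ≤ (Q : ℝ) ^ 2 := by
          rw [Finset.sum_const, Nat.card_Icc, nsmul_eq_mul, sq]
          refine mul_le_mul_of_nonneg_right ?_ (Nat.cast_nonneg Q)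
          exact_mod_cast (by omega : Q + 1 - 2 ≤ Q)

/-- finitely many fibres have no exceptional points for a small constant -/
theorem fib_few (g : ℤ[X]) (hd : 1 ≤ g.natDegree) (M : ℕ) :
    ∃ c : ℝ, 0 < c ∧ ∀ r : ℚ, |(r : ℝ)| ≤ M → r.den ≤ M → ∀ α : ℝ, Irrational α →
      aeval α g = (r : ℝ) → ∀ (p : ℤ) (q : ℕ), 2 ≤ q → q ≤ M → c < |α - (p : ℝ) / q| := by
  classical
  set R : Finset ℚ := ((Icc (-((M : ℤ) * M)) ((M : ℤ) * M)) ×ˢ (Icc 1 M)).image
    (fun z : ℤ × ℕ => (z.1 : ℚ) / z.2) with hR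
  have hmem : ∀ r : ℚ, |(r : ℝ)| ≤ M → r.den ≤ M → r ∈ R := by
    intro r h1 h2
    rw [hR, mem_image]
    refine ⟨(r.num, r.den), ?_, Rat.num_div_den r⟩
    have hd0 : 1 ≤ r.den := r.den_pos
    rw [mem_product, mem_Icc, mem_Icc]
    refine ⟨?_, hd0, h2⟩
    have h3 : |r| ≤ (M : ℚ) := by exact_mod_cast h1
    have h4 : |(r.num : ℚ)| ≤ (M : ℚ) * M := by
      have e : (r.num : ℚ) = r * r.den := (Rat.mul_den_eq_num r).symm
      rw [e, abs_mul, Nat.abs_cast]
      have h5 : (r.den : ℚ) ≤ M := by exact_mod_cast h2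
      exact mul_le_mul h3 h5 (Nat.cast_nonneg _) (Nat.cast_nonneg _)
    have h5 : |r.num| ≤ (M : ℤ) * M := by exact_mod_cast h4
    exact abs_le.mp h5
  set U : Finset ℝ := R.biUnion (fun r =>
    (g.map (Int.castRingHom ℝ) - C (r : ℝ)).roots.toFinset) with hU
  set f : ℝ × ℕ → ℝ := fun z => |(z.2 : ℝ) * z.1 - round ((z.2 : ℝ) * z.1)| / z.2 with hf
  set F : Finset ℝ := insert 1 (((U ×ˢ Icc 2 M).image f).filter (fun x => 0 < x)) with hF
  have hFne : F.Nonempty := Finset.insert_nonempty _ _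
  set c0 : ℝ := F.min' hFne with hc0
  have hc0pos : 0 < c0 := by
    have h1 := F.min'_mem hFne
    rw [← hc0, hF, mem_insert, mem_filter] at h1
    rcases h1 with h1 | h1
    · rw [h1]
      exact one_pos
    · exact h1.2
  refine ⟨c0 / 2, by positivity, ?_⟩
  intro r hr1 hr2 α hirr hα p q hq2 hqM
  have hq0 : (0 : ℝ) < q := by
    have : 0 < q := by omega
    exact_mod_cast this
  have hαU : α ∈ U := by
    rw [hU, Finset.mem_biUnion]
    refine ⟨r, hmem r hr1 hr2, ?_⟩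
    rw [Multiset.mem_toFinset, Polynomial.mem_roots', Polynomial.IsRoot]
    constructor
    · intro h0
      have h1 : (g.map (Int.castRingHom ℝ) - C (r : ℝ)).natDegree = g.natDegree := by
        rw [Polynomial.natDegree_sub_C]
        exact Polynomial.natDegree_map_eq_of_injective
          (RingHom.injective_int (Int.castRingHom ℝ)) g
      rw [h0, Polynomial.natDegree_zero] at h1
      omega
    · rw [Polynomial.eval_sub, Polynomial.eval_C, Polynomial.eval_map, sub_eq_zero]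
      exact hα
  have hgpos : 0 < f (α, q) := by
    simp only [hf]
    apply div_pos _ hq0
    rw [abs_pos, sub_ne_zero]
    exact (hirr.natCast_mul (m := q) (by omega)).ne_int _
  have h1 : c0 ≤ f (α, q) := by
    apply F.min'_le
    rw [hF, mem_insert, mem_filter, mem_image]
    right
    exact ⟨⟨(α, q), mem_product.mpr ⟨hαU, mem_Icc.mpr ⟨hq2, hqM⟩⟩, rfl⟩, hgpos⟩
  have h2 : f (α, q) ≤ |α - (p : ℝ) / q| := by
    simp only [hf]
    rw [div_le_iff₀ hq0]
    have h3 : |α - (p : ℝ) / q| * q = |(q : ℝ) * α - p| := by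
      have h4 : (q : ℝ) * α - p = (α - (p : ℝ) / q) * q := by
        field_simp
      rw [h4, abs_mul, abs_of_pos hq0]
    rw [h3]
    exact round_le _ _
  linarith

/-- rational numbers of bounded size and denominator -/
theorem rat_fin (A B : ℕ) : {r : ℚ | |(r : ℝ)| ≤ A ∧ r.den ≤ B}.Finite := by
  classical
  apply (((Icc (-((A : ℤ) * B)) ((A : ℤ) * B)) ×ˢ (Icc 1 B)).image
    (fun z : ℤ × ℕ => (z.1 : ℚ) / z.2)).finite_toSet.subset
  rintro r ⟨h1, h2⟩
  rw [Finset.mem_coe, mem_image]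
  refine ⟨(r.num, r.den), ?_, Rat.num_div_den r⟩
  have hd0 : 1 ≤ r.den := r.den_pos
  rw [mem_product, mem_Icc, mem_Icc]
  refine ⟨?_, hd0, h2⟩
  have h3 : |r| ≤ (A : ℚ) := by exact_mod_cast h1
  have h4 : |(r.num : ℚ)| ≤ (A : ℚ) * B := by
    have e : (r.num : ℚ) = r * r.den := (Rat.mul_den_eq_num r).symm
    rw [e, abs_mul, Nat.abs_cast]
    have h5 : (r.den : ℚ) ≤ B := by exact_mod_cast h2
    exact mul_le_mul h3 h5 (Nat.cast_nonneg _) (Nat.cast_nonneg _)
  have h5 : |r.num| ≤ (A : ℤ) * B := by exact_mod_cast h4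
  exact abs_le.mp h5

end Pool.Agent.R366.LG
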