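import Pool.Agent.R366.LG.TrScale

/-!
# Exceptional rational translates at all scales
-/

set_option autoImplicit false

namespace Pool.Agent.R366.LG

open Finset Filter

theorem sum_inv_sq (G : ℕ) : ∑ g ∈ Icc 1 G, (1 : ℝ) / (g : ℝ) ^ 2 ≤ 2 := by
  have h : ∑ g ∈ Icc 1 G, (1 : ℝ) / (g : ℝ) ^ 2 ≤ 2 - 2 / ((G : ℝ) + 1) := by
    induction G with
    | zero => simp
    | succ G ih =>
      rw [Finset.sum_Icc_succ_top (by omega)]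
      refine (add_le_add_left ih _).trans ?_
      push_cast
      have h1 : (0 : ℝ) ≤ G := Nat.cast_nonneg G
      have h2 : (1 : ℝ) / ((G : ℝ) + 1) ^ 2 ≤ 2 / ((G : ℝ) + 1) - 2 / ((G : ℝ) + 1 + 1) := by
        rw [div_sub_div _ _ (by positivity) (by positivity), div_le_div_iff₀ (by positivity)
          (by positivity)]
        nlinarith [mul_nonneg h1 h1, mul_nonneg h1 (mul_nonneg h1 h1)]
      linarith
  have h1 : (0 : ℝ) ≤ 2 / ((G : ℝ) + 1) := by positivity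
  linarith

theorem one_sub_le (σ : ℝ) (hσ : 0 < σ) : 1 - 1 / (1 + σ) ≤ σ := by
  rw [sub_le_iff_le_add, ← sub_le_iff_le_add', le_div_iff₀ (by positivity)]
  nlinarith

theorem le_two_mul (x y : ℝ) (hx : 0 ≤ x) (hy : 1 ≤ y) : x ≤ 2 * x * y := by nlinarith

theorem div_bound (c L x : ℝ) (hx : 0 < x) (hL : 0 < L) (h : c ≤ L) :
    c / (x ^ 2 * L) ≤ 1 / x ^ 2 := by
  rw [div_le_div_iff₀ (by positivity) (by positivity)]
  have : 0 ≤ x ^ 2 := by positivity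
  nlinarith

theorem mul_abs_bound (x y P : ℝ) (hP : 1 ≤ P) (hy : 0 ≤ y) : 32 * y ≤ 32 * P * y := by
  nlinarith

theorem sum_id_le (G : ℕ) : ∑ g ∈ Icc 1 G, (g : ℝ) ≤ (G : ℝ) ^ 2 := by
  calc ∑ g ∈ Icc 1 G, (g : ℝ) ≤ ∑ _g ∈ Icc 1 G, (G : ℝ) := by
        refine Finset.sum_le_sum fun g hg => ?_
        rw [mem_Icc] at hg
        exact_mod_cast hg.2
    _ = (G : ℝ) ^ 2 := by
        rw [Finset.sum_const, Nat.card_Icc, nsmul_eq_mul, Nat.add_sub_cancel]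
        ring

theorem tr_scale (ξ τ c C : ℝ) (hτ : 0 < τ) (hc : 0 < c) (hC : 0 < C)
    (hroth : ∀ q : ℕ, 1 ≤ q → ∀ p : ℤ, c ≤ (q : ℝ) ^ (1 + τ) * |q * ξ - p|)
    (hcount : ∀ n : ℕ, 1 ≤ n → ∀ δ : ℝ, 0 ≤ δ → ∀ S : Finset (ℕ × ℤ),
      (∀ z ∈ S, z.1 ≤ n ∧ |(z.1 : ℝ) * ξ - z.2| ≤ δ) →
      (S.card : ℝ) ≤ 8 * n * δ + C * (n : ℝ) ^ τ)
    (H Q G G' : ℕ) (hH : 1 ≤ H) (hQ : 1 ≤ Q) (β : ℝ) (hβ : 0 ≤ β)
    (D : ℝ) (hD0 : 0 ≤ D)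
    (hD : ∀ n : ℕ, 1 ≤ n → n ≤ H * (2 * Q) → (n.divisors.card : ℝ) ≤ D)
    (Ex : Finset (ℕ × ℕ)) (hEx : ∀ z ∈ Ex, z.1 < z.2 ∧ z.2 ≤ H ∧ ∃ (p : ℤ) (q : ℕ),
      Q ≤ q ∧ q < 2 * Q ∧ |ξ + (z.1 : ℝ) / z.2 - (p : ℝ) / q| ≤ β) :
    (Ex.card : ℝ) ≤ 64 * (Q : ℝ) ^ 2 * β * (H : ℝ) ^ 2 +
      8 * Q * (H * D * (1 + Real.log ((H * (2 * Q) : ℕ) : ℝ)) *
        (2 / (c * Q)) ^ (1 / (1 + τ))) * (G : ℝ) ^ 2 +
      G' * D ^ 2 * (8 * ((2 * Q * H : ℝ) / (G + 1 : ℕ)) ^ 2 * β + C * (2 * Q * H : ℝ) ^ τ) +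
      H * D ^ 2 * (8 * ((2 * Q * H : ℝ) / (G' + 1 : ℕ)) ^ 2 * β + C * (2 * Q * H : ℝ) ^ τ) := by
  classical
  have hQ0 : (0 : ℝ) < Q := by exact_mod_cast hQ
  have hH0 : (0 : ℝ) < H := by exact_mod_cast hH
  have hlog0 : 0 ≤ Real.log ((H * (2 * Q) : ℕ) : ℝ) := Real.log_natCast_nonneg _
  set A : ℕ → Finset (ℕ × ℕ) := fun g => Ex.filter (fun z => ∃ (p : ℤ) (q : ℕ),
      Q ≤ q ∧ q < 2 * Q ∧ Nat.gcd q z.2 = g ∧ |ξ + (z.1 : ℝ) / z.2 - (p : ℝ) / q| ≤ β) with hA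
  set B : Finset (ℕ × ℕ) := Ex.filter (fun z => ∃ (p : ℤ) (q : ℕ),
      Q ≤ q ∧ q < 2 * Q ∧ G + 1 ≤ Nat.gcd q z.2 ∧ Nat.gcd q z.2 ≤ G' ∧
        |ξ + (z.1 : ℝ) / z.2 - (p : ℝ) / q| ≤ β) with hB
  set E : Finset (ℕ × ℕ) := Ex.filter (fun z => ∃ (p : ℤ) (q : ℕ),
      Q ≤ q ∧ q < 2 * Q ∧ G' + 1 ≤ Nat.gcd q z.2 ∧ Nat.gcd q z.2 ≤ H ∧
        |ξ + (z.1 : ℝ) / z.2 - (p : ℝ) / q| ≤ β) with hE
  have hsub : Ex ⊆ ((Icc 1 G).biUnion A ∪ B) ∪ E := by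
    intro z hz
    obtain ⟨h1, h2, p, q, h3, h4, h5⟩ := hEx z hz
    have hg1 : 1 ≤ Nat.gcd q z.2 := Nat.gcd_pos_of_pos_right _ (by omega)
    have hg2 : Nat.gcd q z.2 ≤ H :=
      (Nat.le_of_dvd (by omega) (Nat.gcd_dvd_right _ _)).trans h2
    rw [mem_union, mem_union, mem_biUnion]
    rcases Nat.lt_or_ge G (Nat.gcd q z.2) with h6 | h6
    · rcases Nat.lt_or_ge G' (Nat.gcd q z.2) with h7 | h7
      · right
        rw [hE, mem_filter]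
        exact ⟨hz, p, q, h3, h4, h7, hg2, h5⟩
      · left; right
        rw [hB, mem_filter]
        exact ⟨hz, p, q, h3, h4, h6, h7, h5⟩
    · left; left
      refine ⟨Nat.gcd q z.2, mem_Icc.mpr ⟨hg1, h6⟩, ?_⟩
      simp only [hA]
      rw [mem_filter]
      exact ⟨hz, p, q, h3, h4, rfl, h5⟩
  have hcard : (Ex.card : ℝ) ≤ ∑ g ∈ Icc 1 G, ((A g).card : ℝ) + (B.card : ℝ) + (E.card : ℝ) := by
    have h1 : Ex.card ≤ ∑ g ∈ Icc 1 G, (A g).card + B.card + E.card := by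
      refine (Finset.card_le_card hsub).trans ((Finset.card_union_le _ _).trans ?_)
      refine Nat.add_le_add_right ((Finset.card_union_le _ _).trans ?_) _
      exact Nat.add_le_add_right Finset.card_biUnion_le _
    exact_mod_cast h1
  have hBc := tr_large ξ τ C hτ hC hcount H Q (G + 1) G' hH hQ (by omega) β hβ D hD0 hD B (by
    intro z hz
    rw [hB, mem_filter] at hz
    exact ⟨(hEx z hz.1).1, (hEx z hz.1).2.1, hz.2⟩)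
  have hEc := tr_large ξ τ C hτ hC hcount H Q (G' + 1) H hH hQ (by omega) β hβ D hD0 hD E (by
    intro z hz
    rw [hE, mem_filter] at hz
    exact ⟨(hEx z hz.1).1, (hEx z hz.1).2.1, hz.2⟩)
  set U : ℝ := 8 * Q * (H * D * (1 + Real.log ((H * (2 * Q) : ℕ) : ℝ)) *
        (2 / (c * Q)) ^ (1 / (1 + τ))) with hU
  have hU0 : 0 ≤ U := by rw [hU]; positivity
  have hAc : ∀ g ∈ Icc 1 G, ((A g).card : ℝ) ≤
      32 * (Q : ℝ) ^ 2 * β * (H : ℝ) ^ 2 * (1 / (g : ℝ) ^ 2) + U * g := by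
    intro g hg
    rw [mem_Icc] at hg
    have hg0 : (0 : ℝ) < g := by exact_mod_cast hg.1
    have hg1 : (1 : ℝ) ≤ g := by exact_mod_cast hg.1
    have h1 := tr_small ξ τ c hτ hc hroth H Q g hQ hg.1 β hβ D hD0 hD (A g) (by
      intro z hz
      simp only [hA] at hz
      rw [mem_filter] at hz
      exact ⟨(hEx z hz.1).1, (hEx z hz.1).2.1, hz.2⟩)
    refine h1.trans (add_le_add (le_of_eq ?_) ?_)
    · rw [div_pow]
      ring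
    · have h2 : (2 * (g : ℝ) / (c * Q)) ^ (1 / (1 + τ)) ≤
          (2 / (c * Q)) ^ (1 / (1 + τ)) * g := by
        have e1 : 2 * (g : ℝ) / (c * Q) = (2 / (c * Q)) * g := by ring
        rw [e1, Real.mul_rpow (by positivity) hg0.le]
        refine mul_le_mul_of_nonneg_left ?_ (by positivity)
        calc (g : ℝ) ^ (1 / (1 + τ)) ≤ (g : ℝ) ^ (1 : ℝ) := by
              apply Real.rpow_le_rpow_of_exponent_le hg1
              rw [div_le_one (by positivity)]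
              linarith
          _ = g := Real.rpow_one _
      rw [hU]
      calc 8 * (Q : ℝ) * (H * D * (1 + Real.log ((H * (2 * Q) : ℕ) : ℝ)) *
            (2 * (g : ℝ) / (c * Q)) ^ (1 / (1 + τ)))
          ≤ 8 * (Q : ℝ) * (H * D * (1 + Real.log ((H * (2 * Q) : ℕ) : ℝ)) *
            ((2 / (c * Q)) ^ (1 / (1 + τ)) * g)) :=
            mul_le_mul_of_nonneg_left (mul_le_mul_of_nonneg_left h2 (by positivity))
              (by positivity)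
        _ = _ := by ring
  have hAsum : ∑ g ∈ Icc 1 G, ((A g).card : ℝ) ≤
      64 * (Q : ℝ) ^ 2 * β * (H : ℝ) ^ 2 + U * (G : ℝ) ^ 2 := by
    refine (Finset.sum_le_sum hAc).trans ?_
    rw [Finset.sum_add_distrib, ← Finset.mul_sum, ← Finset.mul_sum]
    refine add_le_add ?_ (mul_le_mul_of_nonneg_left (sum_id_le G) hU0)
    calc 32 * (Q : ℝ) ^ 2 * β * (H : ℝ) ^ 2 * ∑ g ∈ Icc 1 G, (1 : ℝ) / (g : ℝ) ^ 2
        ≤ 32 * (Q : ℝ) ^ 2 * β * (H : ℝ) ^ 2 * 2 :=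
          mul_le_mul_of_nonneg_left (sum_inv_sq G) (by positivity)
      _ = _ := by ring
  linarith

/-- the exceptional translates at one scale, for large `H` -/
theorem tr_one (ξ κ σ c0 C Cd c : ℝ) (hκ1 : 1 ≤ κ) (hσ : 0 < σ) (hσdef : σ = 1 / (100 * (κ + 2)))
    (hc : 0 < c) (hc0 : 0 < c0) (hC : 0 < C) (hCd0 : 0 < Cd)
    (hr : ∀ q : ℕ, 1 ≤ q → ∀ p : ℤ, c0 ≤ (q : ℝ) ^ (1 + σ) * |q * ξ - p|)
    (hcount : ∀ n : ℕ, 1 ≤ n → ∀ δ : ℝ, 0 ≤ δ → ∀ S : Finset (ℕ × ℤ),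
      (∀ z ∈ S, z.1 ≤ n ∧ |(z.1 : ℝ) * ξ - z.2| ≤ δ) →
      (S.card : ℝ) ≤ 8 * n * δ + C * (n : ℝ) ^ σ)
    (hCd : ∀ n : ℕ, n ≠ 0 → (n.divisors.card : ℝ) ≤ Cd * (n : ℝ) ^ σ)
    (H Q : ℕ) (hHR2 : (2 : ℝ) ≤ H) (hQ1 : 1 ≤ Q) (hQκ : (Q : ℝ) ≤ (H : ℝ) ^ κ) (L : ℝ)
    (hL0 : 0 < L) (hLc : c ≤ L)
    (Ex : Finset (ℕ × ℕ)) (hEx : ∀ z ∈ Ex, z.1 < z.2 ∧ z.2 ≤ H ∧ ∃ (p : ℤ) (q : ℕ),
      Q ≤ q ∧ q < 2 * Q ∧ |ξ + (z.1 : ℝ) / z.2 - (p : ℝ) / q| ≤ c / ((Q : ℝ) ^ 2 * L)) :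
    (Ex.card : ℝ) ≤ 64 * c * (1 / L) * (H : ℝ) ^ 2 +
      (8 * Cd * (1 + 1 / σ) * (2 / c0) ^ (1 / (1 + σ)) + 2 * (Cd ^ 2 * (32 + C))) *
        (((H : ℝ) ^ (1 / 100 : ℝ)) ^ 3 * (H : ℝ) ^ (9 / 5 : ℝ)) := by
  classical
  have hH0 : (0 : ℝ) < H := by linarith
  have hHR1 : (1 : ℝ) ≤ H := by linarith
  have hHN : 1 ≤ H := by exact_mod_cast hHR1
  set P : ℝ := (H : ℝ) ^ (1 / 100 : ℝ) with hP
  have hP1 : 1 ≤ P := Real.one_le_rpow hHR1 (by norm_num)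
  have hP0 : 0 < P := by linarith
  have hPκ : ((H : ℝ) ^ (κ + 2)) ^ σ = P := by
    rw [hP, ← Real.rpow_mul hH0.le]
    congr 1
    rw [hσdef]
    field_simp
  set s : ℝ := 1 / (1 + σ) with hs
  set K1 : ℝ := (2 / c0) ^ s with hK1
  have hK10 : 0 < K1 := by rw [hK1]; positivity
  set K2 : ℝ := 1 + 1 / σ with hK2
  have hK20 : 0 < K2 := by rw [hK2]; positivity
  obtain ⟨G, hGle, hGge⟩ : ∃ G : ℕ, (G : ℝ) ≤ (H : ℝ) ^ (2 / 5 : ℝ) ∧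
      (H : ℝ) ^ (2 / 5 : ℝ) ≤ ((G + 1 : ℕ) : ℝ) := by
    refine ⟨⌊(H : ℝ) ^ (2 / 5 : ℝ)⌋₊, Nat.floor_le (by positivity), ?_⟩
    push_cast
    exact (Nat.lt_floor_add_one _).le
  obtain ⟨G', hG'le, hG'ge⟩ : ∃ G : ℕ, (G : ℝ) ≤ (H : ℝ) ^ (3 / 5 : ℝ) ∧
      (H : ℝ) ^ (3 / 5 : ℝ) ≤ ((G + 1 : ℕ) : ℝ) := by
    refine ⟨⌊(H : ℝ) ^ (3 / 5 : ℝ)⌋₊, Nat.floor_le (by positivity), ?_⟩
    push_cast
    exact (Nat.lt_floor_add_one _).le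
  have hQ0 : (0 : ℝ) < (Q : ℝ) := by exact_mod_cast hQ1
  have hQR1 : (1 : ℝ) ≤ (Q : ℝ) := by exact_mod_cast hQ1
  have hQH : (2 * Q * H : ℝ) ≤ (H : ℝ) ^ (κ + 2) := by
    have h1 : (H : ℝ) ^ (κ + 2) = (H : ℝ) ^ κ * ((H : ℝ) * H) := by
      rw [Real.rpow_add hH0, Real.rpow_two, sq]
    rw [h1]
    have h2 : (2 * (H : ℝ)) ≤ (H : ℝ) * H := mul_le_mul_of_nonneg_right hHR2 hH0.le
    calc (2 * Q * H : ℝ) = Q * (2 * H) := by ring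
      _ ≤ (H : ℝ) ^ κ * ((H : ℝ) * H) := mul_le_mul hQκ h2 (by positivity) (by positivity)
  have hcastQH : ((H * (2 * Q) : ℕ) : ℝ) = (2 * Q * H : ℝ) := by
    push_cast
    ring
  have hQHσ : (2 * Q * H : ℝ) ^ σ ≤ P := by
    rw [← hPκ]
    exact Real.rpow_le_rpow (by positivity) hQH hσ.le
  have hD : ∀ n : ℕ, 1 ≤ n → n ≤ H * (2 * Q) → (n.divisors.card : ℝ) ≤ Cd * P := by
    intro n hn1 hn
    refine (hCd n (by omega)).trans (mul_le_mul_of_nonneg_left ?_ hCd0.le)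
    refine le_trans ?_ hQHσ
    apply Real.rpow_le_rpow (Nat.cast_nonneg n) _ hσ.le
    rw [← hcastQH]
    exact_mod_cast hn
  obtain ⟨β, hβ⟩ : ∃ β : ℝ, β = c / ((Q : ℝ) ^ 2 * L) := ⟨_, rfl⟩
  rw [← hβ] at hEx
  have hβ0 : 0 ≤ β := by rw [hβ]; positivity
  have hβ1 : β ≤ 1 / (Q : ℝ) ^ 2 := by
    rw [hβ]
    exact div_bound c L Q hQ0 hL0 hLc
  have h1 := tr_scale ξ σ c0 C hσ hc0 hC hr hcount H Q G G' hHN hQ1 β hβ0 (Cd * P)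
    (by positivity) hD Ex hEx
  -- the four terms
  have t1 : 64 * (Q : ℝ) ^ 2 * β * (H : ℝ) ^ 2 = 64 * c * (1 / L) * (H : ℝ) ^ 2 := by
    rw [hβ]
    field_simp
  have hH95 : ∀ x : ℝ, x ≤ 9 / 5 → (H : ℝ) ^ x ≤ (H : ℝ) ^ (9 / 5 : ℝ) := fun x hx =>
    Real.rpow_le_rpow_of_exponent_le hHR1 hx
  have t2 : 8 * (Q : ℝ) * (H * (Cd * P) * (1 + Real.log ((H * (2 * Q) : ℕ) : ℝ)) *
      (2 / (c0 * Q)) ^ (1 / (1 + σ))) * (G : ℝ) ^ 2 ≤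
      8 * Cd * K2 * K1 * (P ^ 3 * (H : ℝ) ^ (9 / 5 : ℝ)) := by
    have g1 : 1 + Real.log ((H * (2 * Q) : ℕ) : ℝ) ≤ K2 * P := by
      rw [hcastQH]
      have g2 : Real.log (2 * Q * H : ℝ) ≤ (2 * Q * H : ℝ) ^ σ / σ :=
        Real.log_le_rpow_div (by positivity) hσ
      have g3 : (2 * Q * H : ℝ) ^ σ / σ ≤ P / σ := div_le_div_of_nonneg_right hQHσ hσ.le
      have g4 : K2 * P = P + P / σ := by rw [hK2]; ring
      rw [g4]
      linarith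
    have g2 : (Q : ℝ) * (2 / (c0 * Q)) ^ (1 / (1 + σ)) ≤ K1 * P := by
      have e1 : 2 / (c0 * Q) = (2 / c0) * (Q : ℝ)⁻¹ := by field_simp
      rw [e1, Real.mul_rpow (by positivity) (by positivity), ← hs, ← hK1]
      have e2 : (Q : ℝ) * (K1 * (Q : ℝ)⁻¹ ^ s) = K1 * (Q : ℝ) ^ (1 - s) := by
        rw [Real.inv_rpow hQ0.le, Real.rpow_sub hQ0, Real.rpow_one]
        ring
      rw [e2]
      refine mul_le_mul_of_nonneg_left ?_ hK10.le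
      have g3 : (Q : ℝ) ^ (1 - s) ≤ (Q : ℝ) ^ σ := by
        apply Real.rpow_le_rpow_of_exponent_le hQR1
        exact one_sub_le σ hσ
      refine g3.trans (le_trans ?_ hQHσ)
      exact Real.rpow_le_rpow hQ0.le (le_two_mul _ _ hQ0.le hHR1) hσ.le
    have g3 : (G : ℝ) ^ 2 ≤ (H : ℝ) ^ (4 / 5 : ℝ) := by
      calc (G : ℝ) ^ 2 ≤ ((H : ℝ) ^ (2 / 5 : ℝ)) ^ 2 := pow_le_pow_left₀ (by positivity) hGle 2
        _ = (H : ℝ) ^ (4 / 5 : ℝ) := by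
          rw [← Real.rpow_natCast, ← Real.rpow_mul hH0.le]
          norm_num
    have hlog0 : 0 ≤ Real.log ((H * (2 * Q) : ℕ) : ℝ) := Real.log_natCast_nonneg _
    calc 8 * (Q : ℝ) * (H * (Cd * P) * (1 + Real.log ((H * (2 * Q) : ℕ) : ℝ)) *
          (2 / (c0 * Q)) ^ (1 / (1 + σ))) * (G : ℝ) ^ 2
        = 8 * (H * (Cd * P)) * (1 + Real.log ((H * (2 * Q) : ℕ) : ℝ)) *
          ((Q : ℝ) * (2 / (c0 * Q)) ^ (1 / (1 + σ))) * (G : ℝ) ^ 2 := by ring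
      _ ≤ 8 * (H * (Cd * P)) * (K2 * P) * (K1 * P) * (H : ℝ) ^ (4 / 5 : ℝ) := by
          refine mul_le_mul ?_ g3 (by positivity) (by positivity)
          refine mul_le_mul ?_ g2 (by positivity) (by positivity)
          exact mul_le_mul_of_nonneg_left g1 (by positivity)
      _ = 8 * Cd * K2 * K1 * (P ^ 3 * ((H : ℝ) * (H : ℝ) ^ (4 / 5 : ℝ))) := by ring
      _ = _ := by
          congr 2
          nth_rewrite 1 [← Real.rpow_one (H : ℝ)]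
          rw [← Real.rpow_add hH0]
          norm_num
  have hgen : ∀ (Y : ℕ) (y z : ℝ), (H : ℝ) ^ y ≤ (Y : ℝ) →
      8 * ((2 * Q * H : ℝ) / (Y : ℕ)) ^ 2 * β ≤ 32 * (H : ℝ) ^ (2 - 2 * y) := by
    intro Y y z hY
    have hHy : 0 < (H : ℝ) ^ y := by positivity
    have hY0 : (0 : ℝ) < Y := lt_of_lt_of_le hHy hY
    have g1 : (2 * Q * H : ℝ) / (Y : ℕ) ≤ (2 * Q * H : ℝ) / (H : ℝ) ^ y :=
      div_le_div_of_nonneg_left (by positivity) hHy hY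
    calc 8 * ((2 * Q * H : ℝ) / (Y : ℕ)) ^ 2 * β
        ≤ 8 * ((2 * Q * H : ℝ) / (H : ℝ) ^ y) ^ 2 * (1 / (Q : ℝ) ^ 2) := by
          refine mul_le_mul ?_ hβ1 hβ0 (by positivity)
          exact mul_le_mul_of_nonneg_left (pow_le_pow_left₀ (by positivity) g1 2) (by norm_num)
      _ = 32 * ((H : ℝ) ^ (2 : ℝ) / ((H : ℝ) ^ y) ^ 2) := by
          rw [Real.rpow_two]
          field_simp
          ring
      _ = 32 * (H : ℝ) ^ (2 - 2 * y) := by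
          rw [← Real.rpow_natCast ((H : ℝ) ^ y), ← Real.rpow_mul hH0.le, ← Real.rpow_sub hH0]
          congr 2
          push_cast
          ring
  have t3 : (G' : ℝ) * (Cd * P) ^ 2 * (8 * ((2 * Q * H : ℝ) / (G + 1 : ℕ)) ^ 2 * β +
      C * (2 * Q * H : ℝ) ^ σ) ≤ Cd ^ 2 * (32 + C) * (P ^ 3 * (H : ℝ) ^ (9 / 5 : ℝ)) := by
    have g1 := hgen (G + 1) (2 / 5) 0 hGge
    have g2 : C * (2 * Q * H : ℝ) ^ σ ≤ C * P * (H : ℝ) ^ (6 / 5 : ℝ) := by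
      have g3 : (1 : ℝ) ≤ (H : ℝ) ^ (6 / 5 : ℝ) := Real.one_le_rpow hHR1 (by norm_num)
      calc C * (2 * Q * H : ℝ) ^ σ ≤ C * P := mul_le_mul_of_nonneg_left hQHσ hC.le
        _ = C * P * 1 := by ring
        _ ≤ _ := mul_le_mul_of_nonneg_left g3 (by positivity)
    have g3 : (32 : ℝ) * (H : ℝ) ^ (2 - 2 * (2 / 5) : ℝ) ≤ 32 * P * (H : ℝ) ^ (6 / 5 : ℝ) := by
      have e : (2 - 2 * (2 / 5) : ℝ) = 6 / 5 := by norm_num
      rw [e]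
      exact mul_abs_bound 0 _ _ hP1 (by positivity)
    calc (G' : ℝ) * (Cd * P) ^ 2 * (8 * ((2 * Q * H : ℝ) / (G + 1 : ℕ)) ^ 2 * β +
          C * (2 * Q * H : ℝ) ^ σ)
        ≤ (H : ℝ) ^ (3 / 5 : ℝ) * (Cd * P) ^ 2 * (32 * P * (H : ℝ) ^ (6 / 5 : ℝ) +
          C * P * (H : ℝ) ^ (6 / 5 : ℝ)) := by
          refine mul_le_mul (mul_le_mul_of_nonneg_right hG'le (by positivity))
            (add_le_add (g1.trans g3) g2) (by positivity) (by positivity)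
      _ = Cd ^ 2 * (32 + C) * (P ^ 3 * ((H : ℝ) ^ (3 / 5 : ℝ) * (H : ℝ) ^ (6 / 5 : ℝ))) := by
          ring
      _ = _ := by
          rw [← Real.rpow_add hH0]
          norm_num
  have t4 : (H : ℝ) * (Cd * P) ^ 2 * (8 * ((2 * Q * H : ℝ) / (G' + 1 : ℕ)) ^ 2 * β +
      C * (2 * Q * H : ℝ) ^ σ) ≤ Cd ^ 2 * (32 + C) * (P ^ 3 * (H : ℝ) ^ (9 / 5 : ℝ)) := by
    have g1 := hgen (G' + 1) (3 / 5) 0 hG'ge
    have g2 : C * (2 * Q * H : ℝ) ^ σ ≤ C * P * (H : ℝ) ^ (4 / 5 : ℝ) := by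
      have g3 : (1 : ℝ) ≤ (H : ℝ) ^ (4 / 5 : ℝ) := Real.one_le_rpow hHR1 (by norm_num)
      calc C * (2 * Q * H : ℝ) ^ σ ≤ C * P := mul_le_mul_of_nonneg_left hQHσ hC.le
        _ = C * P * 1 := by ring
        _ ≤ _ := mul_le_mul_of_nonneg_left g3 (by positivity)
    have g3 : (32 : ℝ) * (H : ℝ) ^ (2 - 2 * (3 / 5) : ℝ) ≤ 32 * P * (H : ℝ) ^ (4 / 5 : ℝ) := by
      have e : (2 - 2 * (3 / 5) : ℝ) = 4 / 5 := by norm_num
      rw [e]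
      exact mul_abs_bound 0 _ _ hP1 (by positivity)
    calc (H : ℝ) * (Cd * P) ^ 2 * (8 * ((2 * Q * H : ℝ) / (G' + 1 : ℕ)) ^ 2 * β +
          C * (2 * Q * H : ℝ) ^ σ)
        ≤ (H : ℝ) * (Cd * P) ^ 2 * (32 * P * (H : ℝ) ^ (4 / 5 : ℝ) +
          C * P * (H : ℝ) ^ (4 / 5 : ℝ)) :=
          mul_le_mul_of_nonneg_left (add_le_add (g1.trans g3) g2) (by positivity)
      _ = Cd ^ 2 * (32 + C) * (P ^ 3 * ((H : ℝ) * (H : ℝ) ^ (4 / 5 : ℝ))) := by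
          ring
      _ = _ := by
          congr 2
          nth_rewrite 1 [← Real.rpow_one (H : ℝ)]
          rw [← Real.rpow_add hH0]
          norm_num
  rw [t1] at h1
  have e5 : (8 * Cd * K2 * K1 + 2 * (Cd ^ 2 * (32 + C))) * (P ^ 3 * (H : ℝ) ^ (9 / 5 : ℝ)) =
      8 * Cd * K2 * K1 * (P ^ 3 * (H : ℝ) ^ (9 / 5 : ℝ)) +
      Cd ^ 2 * (32 + C) * (P ^ 3 * (H : ℝ) ^ (9 / 5 : ℝ)) +
      Cd ^ 2 * (32 + C) * (P ^ 3 * (H : ℝ) ^ (9 / 5 : ℝ)) := by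
    ring
  rw [e5]
  linarith

theorem tr_large_H (ξ : ℝ)
    (hroth : ∀ τ : ℝ, 0 < τ → ∃ c : ℝ, 0 < c ∧ ∀ q : ℕ, 1 ≤ q → ∀ p : ℤ,
      c ≤ (q : ℝ) ^ (1 + τ) * |q * ξ - p|)
    (κ ε η c : ℝ) (hκ1 : 1 ≤ κ) (hε : 0 < ε) (hη : 0 < η) (hc : 0 < c)
    (hc1 : c ≤ Real.log 2 ^ (1 + ε))
    (hc2 : 64 * c * ∑' n : ℕ, 1 / ((n : ℝ) * Real.log 2) ^ (1 + ε) ≤ η / 2) :
    ∀ᶠ H : ℕ in atTop, ∀ Ex : Finset (ℕ × ℕ), (∀ z ∈ Ex, z.1 < z.2 ∧ z.2 ≤ H ∧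
      ∃ (p : ℤ) (q : ℕ), 2 ≤ q ∧ (q : ℝ) ≤ (H : ℝ) ^ κ ∧
        |ξ + (z.1 : ℝ) / z.2 - (p : ℝ) / q| ≤
        c / ((q : ℝ) ^ 2 * Real.log q ^ (1 + ε))) → (Ex.card : ℝ) ≤ η * (H : ℝ) ^ 2 := by
  classical
  have hκ0 : 0 < κ := by linarith
  set σ : ℝ := 1 / (100 * (κ + 2)) with hσdef
  have hσ : 0 < σ := by rw [hσdef]; positivity
  obtain ⟨c0, hc0, hr⟩ := hroth σ hσ
  obtain ⟨C, hC, hcount⟩ := Pool.Agent.TH42.LD.alg_count ξ σ c0 hσ hc0 hr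
  obtain ⟨Cd, hCd0, hCd⟩ := Pool.Agent.TH42.LA.divisor_bound σ hσ
  have hlog2 : 0 < Real.log 2 := Real.log_pos (by norm_num)
  set s : ℝ := 1 / (1 + σ) with hs
  set K1 : ℝ := (2 / c0) ^ s with hK1
  have hK10 : 0 < K1 := by rw [hK1]; positivity
  set K2 : ℝ := 1 + 1 / σ with hK2
  have hK20 : 0 < K2 := by rw [hK2]; positivity
  set K3 : ℝ := 2 / σ with hK3
  have hK30 : 0 < K3 := by rw [hK3]; positivity
  set K : ℝ := 8 * Cd * K2 * K1 + 2 * (Cd ^ 2 * (32 + C)) with hK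
  have hK0 : 0 < K := by rw [hK]; positivity
  set K' : ℝ := K3 * K with hK'
  filter_upwards [Pool.Agent.TH42.LA.const_le_rpow (4 / 25) (K' / (η / 2)) (by norm_num),
    eventually_ge_atTop 2] with H hH1 hH2 Ex hEx
  have hH0 : (0 : ℝ) < H := by
    have : 0 < H := by omega
    exact_mod_cast this
  have hHR1 : (1 : ℝ) ≤ H := by
    have : 1 ≤ H := by omega
    exact_mod_cast this
  have hHR2 : (2 : ℝ) ≤ H := by exact_mod_cast hH2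
  set P : ℝ := (H : ℝ) ^ (1 / 100 : ℝ) with hP
  have hP1 : 1 ≤ P := Real.one_le_rpow hHR1 (by norm_num)
  have hP0 : 0 < P := by linarith
  have hPκ : ((H : ℝ) ^ (κ + 2)) ^ σ = P := by
    rw [hP, ← Real.rpow_mul hH0.le]
    congr 1
    rw [hσdef]
    field_simp
  set J : ℕ := Nat.log 2 ⌊(H : ℝ) ^ κ⌋₊ with hJ
  have hfl : ⌊(H : ℝ) ^ κ⌋₊ ≠ 0 := by
    have h1 : (1 : ℝ) ≤ (H : ℝ) ^ κ := Real.one_le_rpow hHR1 hκ0.le
    have h2 : 1 ≤ ⌊(H : ℝ) ^ κ⌋₊ := Nat.le_floor (by simpa using h1)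
    omega
  have h2J : (2 : ℝ) ^ J ≤ (H : ℝ) ^ κ := by
    have h1 : 2 ^ J ≤ ⌊(H : ℝ) ^ κ⌋₊ := Nat.pow_log_le_self 2 hfl
    have h2 : ((2 ^ J : ℕ) : ℝ) ≤ (⌊(H : ℝ) ^ κ⌋₊ : ℝ) := by exact_mod_cast h1
    push_cast at h2
    exact h2.trans (Nat.floor_le (by positivity))
  have hκ2 : (H : ℝ) ^ κ ≤ (H : ℝ) ^ (κ + 2) :=
    Real.rpow_le_rpow_of_exponent_le hHR1 (by linarith)
  have hJle : (J : ℝ) ≤ K3 * P := by
    have h1 : (J : ℝ) * Real.log 2 ≤ Real.log ((H : ℝ) ^ (κ + 2)) := by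
      rw [← Real.log_pow]
      exact Real.log_le_log (by positivity) (h2J.trans hκ2)
    have h2 : Real.log ((H : ℝ) ^ (κ + 2)) ≤ P / σ := by
      rw [← hPκ]
      exact Real.log_le_rpow_div (by positivity) hσ
    have h3 := Real.log_two_gt_d9
    have h4 : (0 : ℝ) ≤ J := Nat.cast_nonneg J
    have h5 : K3 * P = 2 * (P / σ) := by rw [hK3]; ring
    rw [h5]
    have h6 : (J : ℝ) * (1 / 2) ≤ J * Real.log 2 :=
      mul_le_mul_of_nonneg_left (by linarith) h4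
    linarith
  set Ej : ℕ → Finset (ℕ × ℕ) := fun j => Ex.filter (fun z : ℕ × ℕ => ∃ (p : ℤ) (q : ℕ),
    2 ^ j ≤ q ∧ q < 2 * 2 ^ j ∧ |ξ + (z.1 : ℝ) / z.2 - (p : ℝ) / q| ≤
      c / (((2 ^ j : ℕ) : ℝ) ^ 2 * ((j : ℝ) * Real.log 2) ^ (1 + ε))) with hEj
  have hsub : Ex ⊆ (Icc 1 J).biUnion Ej := by
    intro a ha
    obtain ⟨haH, haH2, p, q, hq2, hqκ, hle⟩ := hEx a ha
    rw [mem_biUnion]
    have hq0 : q ≠ 0 := by omega
    refine ⟨Nat.log 2 q, ?_, ?_⟩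
    · rw [mem_Icc]
      refine ⟨Nat.log_pos (by norm_num) hq2, Nat.log_mono_right (Nat.le_floor hqκ)⟩
    · simp only [hEj]
      rw [mem_filter]
      refine ⟨ha, p, q, Nat.pow_log_le_self 2 hq0, ?_, hle.trans ?_⟩
      · have := Nat.lt_pow_succ_log_self (b := 2) (by norm_num) q
        rw [pow_succ] at this
        omega
      · have h1 : ((2 ^ (Nat.log 2 q) : ℕ) : ℝ) ≤ q := by
          exact_mod_cast Nat.pow_log_le_self 2 hq0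
        have h2 : ((Nat.log 2 q : ℕ) : ℝ) * Real.log 2 ≤ Real.log q := by
          rw [← Real.log_pow]
          apply Real.log_le_log (by positivity)
          push_cast at h1
          exact h1
        have h3 : 1 ≤ Nat.log 2 q := Nat.log_pos (by norm_num) hq2
        have h4 : (0 : ℝ) < (Nat.log 2 q : ℕ) := by exact_mod_cast h3
        apply div_le_div_of_nonneg_left hc.le (by positivity)
        refine mul_le_mul (pow_le_pow_left₀ (by positivity) h1 2) ?_ (by positivity)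
          (by positivity)
        exact Real.rpow_le_rpow (by positivity) h2 (by linarith)
  have hcardj : ∀ j ∈ Icc 1 J, ((Ej j).card : ℝ) ≤
      64 * c * (1 / ((j : ℝ) * Real.log 2) ^ (1 + ε)) * (H : ℝ) ^ 2 +
        K * (P ^ 3 * (H : ℝ) ^ (9 / 5 : ℝ)) := by
    intro j hj
    rw [mem_Icc] at hj
    have hj0 : (0 : ℝ) < j := by exact_mod_cast hj.1
    have hj1 : (1 : ℝ) ≤ j := by exact_mod_cast hj.1
    have hL0 : 0 < ((j : ℝ) * Real.log 2) ^ (1 + ε) := by positivity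
    have hLc : c ≤ ((j : ℝ) * Real.log 2) ^ (1 + ε) := by
      refine hc1.trans (Real.rpow_le_rpow hlog2.le ?_ (by linarith))
      exact le_mul_of_one_le_left hlog2.le hj1
    have hQκ : ((2 ^ j : ℕ) : ℝ) ≤ (H : ℝ) ^ κ := by
      refine le_trans ?_ h2J
      push_cast
      exact pow_le_pow_right₀ (by norm_num) hj.2
    exact tr_one ξ κ σ c0 C Cd c hκ1 hσ hσdef hc hc0 hC hCd0 hr hcount hCd H (2 ^ j) hHR2
      Nat.one_le_two_pow hQκ _ hL0 hLc (Ej j) (fun z hz =>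
        ⟨(hEx z (Finset.mem_filter.mp hz).1).1, (hEx z (Finset.mem_filter.mp hz).1).2.1,
          (Finset.mem_filter.mp hz).2⟩)
  have hcard : (Ex.card : ℝ) ≤ ∑ j ∈ Icc 1 J, ((Ej j).card : ℝ) := by
    exact_mod_cast (Finset.card_le_card hsub).trans Finset.card_biUnion_le
  refine hcard.trans ((Finset.sum_le_sum hcardj).trans ?_)
  rw [Finset.sum_add_distrib, ← Finset.sum_mul, ← Finset.mul_sum, Finset.sum_const, nsmul_eq_mul,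
    Nat.card_Icc, Nat.add_sub_cancel]
  have hZ : ∑ j ∈ Icc 1 J, 1 / ((j : ℝ) * Real.log 2) ^ (1 + ε) ≤
      ∑' n : ℕ, 1 / ((n : ℝ) * Real.log 2) ^ (1 + ε) :=
    (Pool.Agent.TH42.LD.tail_summable ε hε).sum_le_tsum _ (fun n _ => by positivity)
  have hmain : 64 * c * (∑ j ∈ Icc 1 J, 1 / ((j : ℝ) * Real.log 2) ^ (1 + ε)) * (H : ℝ) ^ 2 ≤
      η / 2 * (H : ℝ) ^ 2 := by
    refine mul_le_mul_of_nonneg_right ?_ (by positivity)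
    exact (mul_le_mul_of_nonneg_left hZ (by positivity)).trans hc2
  have hsec : (J : ℝ) * (K * (P ^ 3 * (H : ℝ) ^ (9 / 5 : ℝ))) ≤ η / 2 * (H : ℝ) ^ 2 := by
    calc (J : ℝ) * (K * (P ^ 3 * (H : ℝ) ^ (9 / 5 : ℝ)))
        ≤ (K3 * P) * (K * (P ^ 3 * (H : ℝ) ^ (9 / 5 : ℝ))) :=
          mul_le_mul_of_nonneg_right hJle (by positivity)
      _ = K' * (P * P * P * P * (H : ℝ) ^ (9 / 5 : ℝ)) := by
          rw [hK']
          ring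
      _ = K' * (H : ℝ) ^ (46 / 25 : ℝ) := by
          rw [hP, ← Real.rpow_add hH0, ← Real.rpow_add hH0, ← Real.rpow_add hH0,
            ← Real.rpow_add hH0]
          norm_num
      _ ≤ (η / 2 * (H : ℝ) ^ (4 / 25 : ℝ)) * (H : ℝ) ^ (46 / 25 : ℝ) := by
          refine mul_le_mul_of_nonneg_right ?_ (by positivity)
          rw [div_le_iff₀ (by positivity)] at hH1
          linarith
      _ = η / 2 * (H : ℝ) ^ 2 := by
          rw [mul_assoc, ← Real.rpow_add hH0, ← Real.rpow_natCast]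
          norm_num
  linarith

/-- no exceptional translate of bounded height for a small constant -/
theorem tr_few (ξ : ℝ) (c1 : ℝ) (hc1 : 0 < c1)
    (hroth : ∀ q : ℕ, 1 ≤ q → ∀ p : ℤ, c1 ≤ (q : ℝ) ^ (1 + (1 : ℝ)) * |q * ξ - p|)
    (ε : ℝ) (hε : 0 < ε) (M : ℝ) (hM : 1 ≤ M) :
    ∃ c : ℝ, 0 < c ∧ ∀ (a b : ℕ) (p : ℤ) (q : ℕ), 1 ≤ b → (b : ℝ) ≤ M → 2 ≤ q → (q : ℝ) ≤ M →
      c / ((q : ℝ) ^ 2 * Real.log q ^ (1 + ε)) < |ξ + (a : ℝ) / b - (p : ℝ) / q| := by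
  have hlog2 : 0 < Real.log 2 := Real.log_pos (by norm_num)
  have hM0 : 0 < M := by linarith
  set L : ℝ := Real.log 2 ^ (1 + ε) with hL
  have hL0 : 0 < L := by rw [hL]; positivity
  set B : ℝ := (M * M) ^ (1 + (1 : ℝ)) * (M * M) with hB
  have hB0 : 0 < B := by rw [hB]; positivity
  refine ⟨c1 / (2 * B) * L, by positivity, ?_⟩
  intro a b p q hb hbM hq2 hqM
  have hb0 : (0 : ℝ) < b := by exact_mod_cast hb
  have hq0 : (0 : ℝ) < q := by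
    have : 0 < q := by omega
    exact_mod_cast this
  have hn1 : 1 ≤ b * q := Nat.mul_pos hb (by omega)
  have hr := hroth (b * q) hn1 (p * b - a * q)
  have e1 : ((b * q : ℕ) : ℝ) * ξ - ((p * b - a * q : ℤ) : ℝ) =
      ((b : ℝ) * q) * (ξ + (a : ℝ) / b - (p : ℝ) / q) := by
    push_cast
    field_simp
    ring
  rw [e1, abs_mul, abs_of_pos (mul_pos hb0 hq0)] at hr
  have hbq : (b : ℝ) * q ≤ M * M := mul_le_mul hbM hqM hq0.le hM0.le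
  have h1 : ((b * q : ℕ) : ℝ) ^ (1 + (1 : ℝ)) ≤ (M * M) ^ (1 + (1 : ℝ)) := by
    apply Real.rpow_le_rpow (Nat.cast_nonneg _) _ (by norm_num)
    push_cast
    exact hbq
  have h2 : c1 ≤ B * |ξ + (a : ℝ) / b - (p : ℝ) / q| := by
    calc c1 ≤ (M * M) ^ (1 + (1 : ℝ)) * ((M * M) * |ξ + (a : ℝ) / b - (p : ℝ) / q|) :=
          hr.trans (mul_le_mul h1 (mul_le_mul_of_nonneg_right hbq (abs_nonneg _))
            (by positivity) (by positivity))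
      _ = _ := by rw [hB]; ring
  have h3 : c1 / (2 * B) * L / ((q : ℝ) ^ 2 * Real.log q ^ (1 + ε)) ≤ c1 / (2 * B) := by
    have hq2R : (2 : ℝ) ≤ q := by exact_mod_cast hq2
    have h5 : L ≤ Real.log q ^ (1 + ε) :=
      Real.rpow_le_rpow hlog2.le (Real.log_le_log (by norm_num) hq2R) (by linarith)
    have h6 : L ≤ (q : ℝ) ^ 2 * Real.log q ^ (1 + ε) := by
      have hq4 : (1 : ℝ) ≤ (q : ℝ) ^ 2 := by nlinarith
      nlinarith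
    rw [div_le_iff₀ (lt_of_lt_of_le hL0 h6)]
    exact mul_le_mul_of_nonneg_left h6 (by positivity)
  have h4 : c1 / (2 * B) < |ξ + (a : ℝ) / b - (p : ℝ) / q| := by
    rw [div_lt_iff₀ (by positivity)]
    have : B * |ξ + (a : ℝ) / b - (p : ℝ) / q| < |ξ + (a : ℝ) / b - (p : ℝ) / q| * (2 * B) := by
      have h5 : 0 < |ξ + (a : ℝ) / b - (p : ℝ) / q| := by
        by_contra h6
        have h7 : |ξ + (a : ℝ) / b - (p : ℝ) / q| = 0 :=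
          le_antisymm (not_lt.mp h6) (abs_nonneg _)
        rw [h7, mul_zero] at h2
        linarith
      nlinarith [mul_pos h5 hB0]
    linarith
  linarith

end Pool.Agent.R366.LG
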