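import Pool.Agent.R366.LG.Basic

/-!
# Exceptional rational translates at one scale
-/

set_option autoImplicit false

namespace Pool.Agent.R366.LG

open Finset Filter

/-- the identity behind all the counts -/
theorem tr_ident (ξ : ℝ) (a b q g : ℕ) (p : ℤ) (hb : 0 < b) (hq : 0 < q) (hg : Nat.gcd q b = g) :
    ((q / g : ℕ) : ℝ) * ((b : ℝ) * ξ) - ((p * ((b / g : ℕ) : ℤ) - (a : ℤ) * ((q / g : ℕ) : ℤ) : ℤ) : ℝ)
      = ((b : ℝ) * ((q / g : ℕ) : ℝ)) * (ξ + (a : ℝ) / b - (p : ℝ) / q) := by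
  have hg0 : 0 < g := by rw [← hg]; exact Nat.gcd_pos_of_pos_left b hq
  have hgq : g ∣ q := by rw [← hg]; exact Nat.gcd_dvd_left q b
  have hgb : g ∣ b := by rw [← hg]; exact Nat.gcd_dvd_right q b
  have hq' : (g : ℝ) * ((q / g : ℕ) : ℝ) = q := by exact_mod_cast Nat.mul_div_cancel' hgq
  have hb' : (g : ℝ) * ((b / g : ℕ) : ℝ) = b := by exact_mod_cast Nat.mul_div_cancel' hgb
  have hb0 : (0 : ℝ) < b := by exact_mod_cast hb
  have hq0 : (0 : ℝ) < q := by exact_mod_cast hq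
  have hgR : (0 : ℝ) < g := by exact_mod_cast hg0
  have h1 : (b : ℝ) * ((q / g : ℕ) : ℝ) * ((p : ℝ) / q) = p * ((b / g : ℕ) : ℝ) := by
    rw [mul_div_assoc', div_eq_iff hq0.ne']
    rw [← hq', ← hb']
    ring
  have h2 : (b : ℝ) * ((q / g : ℕ) : ℝ) * ((a : ℝ) / b) = a * ((q / g : ℕ) : ℝ) := by
    field_simp
  rw [Int.cast_sub, Int.cast_mul, Int.cast_mul, Int.cast_natCast, Int.cast_natCast,
    Int.cast_natCast, mul_sub, mul_add, h1, h2]
  ring

/-- the numerators over one denominator -/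
theorem tr_fibre (b q' g b' : ℕ) (l : ℤ) (hb' : 1 ≤ b') (hb : b = g * b')
    (hcop : Nat.Coprime q' b') (F : Finset (ℕ × ℕ))
    (hF : ∀ z ∈ F, z.1 < z.2 ∧ z.2 = b ∧ (b' : ℤ) ∣ (q' : ℤ) * z.1 + l) : F.card ≤ g := by
  classical
  refine le_trans ?_ (Pool.Agent.TH42.LD.residue_count g b' q' hb' hcop l)
  apply Finset.card_le_card_of_injOn (fun z => z.1)
  · intro z hz
    obtain ⟨h1, h2, h3⟩ := hF z hz
    rw [Finset.mem_coe, mem_filter, mem_range]
    refine ⟨?_, h3⟩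
    show z.1 < g * b'
    rw [← hb, ← h2]
    exact h1
  · intro z hz z' hz' h
    obtain ⟨_, h2, _⟩ := hF z hz
    obtain ⟨_, h2', _⟩ := hF z' hz'
    exact Prod.ext h (h2.trans h2'.symm)

theorem tr_small (ξ τ c : ℝ) (hτ : 0 < τ) (hc : 0 < c)
    (hroth : ∀ q : ℕ, 1 ≤ q → ∀ p : ℤ, c ≤ (q : ℝ) ^ (1 + τ) * |q * ξ - p|)
    (H Q g : ℕ) (hQ : 1 ≤ Q) (hg : 1 ≤ g) (β : ℝ) (hβ : 0 ≤ β) (D : ℝ) (hD0 : 0 ≤ D)
    (hD : ∀ n : ℕ, 1 ≤ n → n ≤ H * (2 * Q) → (n.divisors.card : ℝ) ≤ D)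
    (Ex : Finset (ℕ × ℕ)) (hEx : ∀ z ∈ Ex, z.1 < z.2 ∧ z.2 ≤ H ∧ ∃ (p : ℤ) (q : ℕ),
      Q ≤ q ∧ q < 2 * Q ∧ Nat.gcd q z.2 = g ∧ |ξ + (z.1 : ℝ) / z.2 - (p : ℝ) / q| ≤ β) :
    (Ex.card : ℝ) ≤ 32 * (Q : ℝ) ^ 2 * β * ((H : ℝ) / g) ^ 2 +
      8 * Q * (H * D * (1 + Real.log ((H * (2 * Q) : ℕ) : ℝ)) *
        (2 * g / (c * Q)) ^ (1 / (1 + τ))) := by
  classical
  have hQ0 : (0 : ℝ) < Q := by exact_mod_cast hQ
  have hg0 : (0 : ℝ) < g := by exact_mod_cast hg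
  have hlog0 : 0 ≤ Real.log ((H * (2 * Q) : ℕ) : ℝ) := Real.log_natCast_nonneg _
  set X : ℕ := 2 * Q / g with hX
  rcases Nat.eq_zero_or_pos X with hX0 | hX1
  · have hE : Ex = ∅ := by
      rw [Finset.eq_empty_iff_forall_notMem]
      intro z hz
      obtain ⟨h1, _, p, q, hq1, hq2, hq3, _⟩ := hEx z hz
      have h4 : g ≤ q := by
        rw [← hq3]
        exact Nat.le_of_dvd (by omega) (Nat.gcd_dvd_left _ _)
      have h5 : 2 * Q < g := by
        rw [hX, Nat.div_eq_zero_iff] at hX0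
        omega
      omega
    rw [hE]
    simp only [Finset.card_empty, Nat.cast_zero]
    positivity
  have hX0 : (0 : ℝ) < X := by exact_mod_cast hX1
  have hXle : (X : ℝ) ≤ 2 * Q / g := by
    rw [hX]
    refine Nat.cast_div_le.trans (le_of_eq ?_)
    push_cast
    ring
  have hXge : (Q : ℝ) / g ≤ X := by
    have h1 : 2 * Q < g * (X + 1) := by
      have h2 := Nat.div_add_mod (2 * Q) g
      have h3 := Nat.mod_lt (2 * Q) hg
      rw [← hX] at h2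
      nlinarith
    have h2 : g * (X + 1) ≤ g * (2 * X) := Nat.mul_le_mul_left g (by omega)
    have h3 : Q ≤ g * X := by nlinarith
    rw [div_le_iff₀ hg0]
    have h4 : (Q : ℝ) ≤ ((g * X : ℕ) : ℝ) := by exact_mod_cast h3
    push_cast at h4
    linarith
  choose W hW1 hWn hWl hsep using fun b : ℕ =>
    Pool.Agent.TH42.LD.first_small ((b : ℝ) * ξ) X hX1
  have hEx' : ∀ z : ℕ × ℕ, ∃ pq : ℤ × ℕ, z ∈ Ex → Q ≤ pq.2 ∧ pq.2 < 2 * Q ∧
      Nat.gcd pq.2 z.2 = g ∧ |ξ + (z.1 : ℝ) / z.2 - (pq.1 : ℝ) / pq.2| ≤ β := by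
    intro z
    by_cases hz : z ∈ Ex
    · obtain ⟨_, _, p, q, h⟩ := hEx z hz
      exact ⟨(p, q), fun _ => h⟩
    · exact ⟨(0, 0), fun h => absurd h hz⟩
  choose pq hpq using hEx'
  set φ : ℕ × ℕ → ℕ × ℤ := fun z =>
    ((pq z).2 / g, (pq z).1 * ((z.2 / g : ℕ) : ℤ) - (z.1 : ℤ) * (((pq z).2 / g : ℕ) : ℤ)) with hφ
  set T : Finset ℕ := (Ioc 0 H).filter (fun b => g ∣ b) with hT
  have hTcard : (T.card : ℝ) ≤ (H : ℝ) / g := by
    rw [hT, Nat.Ioc_filter_dvd_card_eq_div]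
    exact Nat.cast_div_le
  -- one denominator
  have hone : ∀ b ∈ T, ((Ex.filter (fun z => z.2 = b)).card : ℝ) ≤
      32 * (Q : ℝ) ^ 2 * β * (H : ℝ) / g + 8 * Q * (1 / ((W b : ℕ) : ℝ)) := by
    intro b hb
    rw [hT, mem_filter, mem_Ioc] at hb
    obtain ⟨⟨hb0, hbH⟩, b', hbb⟩ := hb
    have hb'1 : 1 ≤ b' := by
      rcases Nat.eq_zero_or_pos b' with h | h
      · rw [h, mul_zero] at hbb
        omega
      · exact h
    have hbg : b / g = b' := by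
      rw [hbb]
      exact Nat.mul_div_cancel_left b' hg
    have hbR : (0 : ℝ) < b := by exact_mod_cast hb0
    have hbH' : (b : ℝ) ≤ H := by exact_mod_cast hbH
    set F : Finset (ℕ × ℕ) := Ex.filter (fun z => z.2 = b) with hF
    have hfib : ∀ s ∈ F.image φ, (F.filter (fun z => φ z = s)).card ≤ g := by
      intro s hs
      rw [mem_image] at hs
      obtain ⟨z0, hz0, hz0s⟩ := hs
      rw [hF, mem_filter] at hz0
      obtain ⟨h1, h2, h3, h4⟩ := hpq z0 hz0.1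
      have hcop : Nat.Coprime ((pq z0).2 / g) b' := by
        have h5 := Nat.coprime_div_gcd_div_gcd (m := (pq z0).2) (n := z0.2) (by rw [h3]; omega)
        rw [h3, hz0.2, hbg] at h5
        exact h5
      apply tr_fibre b ((pq z0).2 / g) g b' s.2 hb'1 hbb hcop
      intro z hz
      rw [mem_filter, hF, mem_filter] at hz
      obtain ⟨⟨hzE, hzb⟩, hzs⟩ := hz
      refine ⟨(hEx z hzE).1, hzb, ?_⟩
      have h5 : (pq z).2 / g = (pq z0).2 / g := by
        have := hzs.trans hz0s.symm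
        simp only [hφ, Prod.mk.injEq] at this
        exact this.1
      have h6 : s.2 = (pq z).1 * ((z.2 / g : ℕ) : ℤ) - (z.1 : ℤ) * (((pq z).2 / g : ℕ) : ℤ) := by
        rw [← hzs]
      rw [h6, h5, hzb, hbg]
      exact ⟨(pq z).1, by ring⟩
    have hle := Finset.card_le_mul_card_image F g hfib
    set δ : ℝ := (b : ℝ) * (2 * Q / g) * β with hδ
    have hδ0 : 0 ≤ δ := by rw [hδ]; positivity
    have hlat := Pool.Agent.TH42.LD.lattice_count ((b : ℝ) * ξ) X (W b) (hW1 b) (hWn b) (hsep b)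
      δ hδ0 (F.image φ) (by
        intro s hs
        rw [mem_image] at hs
        obtain ⟨z, hz, rfl⟩ := hs
        rw [hF, mem_filter] at hz
        obtain ⟨h1, h2, h3, h4⟩ := hpq z hz.1
        have hqle : (pq z).2 / g ≤ X := Nat.div_le_div_right h2.le
        refine ⟨hqle, ?_⟩
        have hid := tr_ident ξ z.1 z.2 (pq z).2 g (pq z).1 (by rw [hz.2]; exact hb0) (by omega) h3
        have e : |((φ z).1 : ℝ) * ((b : ℝ) * ξ) - ((φ z).2 : ℝ)| =
            ((b : ℝ) * (((pq z).2 / g : ℕ) : ℝ)) * |ξ + (z.1 : ℝ) / z.2 - ((pq z).1 : ℝ) / (pq z).2| := by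
          simp only [hφ]
          rw [← hz.2, hid, abs_mul, abs_of_nonneg (by positivity)]
        rw [e, hδ]
        have hqle' : ((((pq z).2 / g : ℕ)) : ℝ) ≤ 2 * Q / g := by
          have : ((((pq z).2 / g : ℕ)) : ℝ) ≤ X := by exact_mod_cast hqle
          exact this.trans hXle
        exact mul_le_mul (mul_le_mul_of_nonneg_left hqle' hbR.le) h4 (abs_nonneg _)
          (by positivity))
    have hle' : (F.card : ℝ) ≤ g * ((F.image φ).card : ℝ) := by exact_mod_cast hle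
    have hWb0 : (0 : ℝ) < (W b : ℕ) := by exact_mod_cast hW1 b
    calc (F.card : ℝ) ≤ g * (8 * X * δ + 4 * (X / ((W b : ℕ) : ℝ))) :=
          hle'.trans (mul_le_mul_of_nonneg_left hlat hg0.le)
      _ ≤ g * (8 * (2 * Q / g) * ((H : ℝ) * (2 * Q / g) * β) +
            4 * ((2 * Q / g) / ((W b : ℕ) : ℝ))) := by
          refine mul_le_mul_of_nonneg_left (add_le_add ?_ ?_) hg0.le
          · refine mul_le_mul (by linarith) ?_ hδ0 (by positivity)
            rw [hδ]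
            exact mul_le_mul_of_nonneg_right (mul_le_mul_of_nonneg_right hbH' (by positivity)) hβ
          · exact mul_le_mul_of_nonneg_left (div_le_div_of_nonneg_right hXle hWb0.le)
              (by norm_num)
      _ = 32 * (Q : ℝ) ^ 2 * β * (H : ℝ) / g + 8 * Q * (1 / ((W b : ℕ) : ℝ)) := by
          field_simp
          ring
  have hsub : Ex ⊆ T.biUnion (fun b => Ex.filter (fun z => z.2 = b)) := by
    intro z hz
    obtain ⟨h1, h2, p, q, hq1, hq2, hq3, _⟩ := hEx z hz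
    rw [mem_biUnion]
    refine ⟨z.2, ?_, mem_filter.mpr ⟨hz, rfl⟩⟩
    rw [hT, mem_filter, mem_Ioc]
    refine ⟨⟨by omega, h2⟩, ?_⟩
    rw [← hq3]
    exact Nat.gcd_dvd_right _ _
  have hcard : (Ex.card : ℝ) ≤ ∑ b ∈ T, ((Ex.filter (fun z => z.2 = b)).card : ℝ) := by
    exact_mod_cast (Finset.card_le_card hsub).trans Finset.card_biUnion_le
  refine hcard.trans ((Finset.sum_le_sum hone).trans ?_)
  rw [Finset.sum_add_distrib, Finset.sum_const, nsmul_eq_mul, ← Finset.mul_sum]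
  have hinv := inv_sum ξ τ c hτ hc hroth H (2 * Q) X hX1 D hD0 hD T W (by
    intro b hb
    rw [hT, mem_filter, mem_Ioc] at hb
    exact ⟨hb.1.1, hb.1.2, hW1 b, (hWn b).trans (Nat.div_le_self _ _), hWl b⟩)
  refine add_le_add ?_ (mul_le_mul_of_nonneg_left (hinv.trans ?_) (by positivity))
  · calc (T.card : ℝ) * (32 * (Q : ℝ) ^ 2 * β * (H : ℝ) / g)
        ≤ ((H : ℝ) / g) * (32 * (Q : ℝ) ^ 2 * β * (H : ℝ) / g) :=
          mul_le_mul_of_nonneg_right hTcard (by positivity)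
      _ = 32 * (Q : ℝ) ^ 2 * β * ((H : ℝ) / g) ^ 2 := by ring
  · refine mul_le_mul_of_nonneg_left ?_ (by positivity)
    apply Real.rpow_le_rpow (by positivity) _ (by positivity)
    rw [div_le_div_iff₀ (by positivity) (by positivity)]
    rw [div_le_iff₀ hg0] at hXge
    nlinarith

theorem tr_large (ξ τ C : ℝ) (hτ : 0 < τ) (hC : 0 < C)
    (hcount : ∀ n : ℕ, 1 ≤ n → ∀ δ : ℝ, 0 ≤ δ → ∀ S : Finset (ℕ × ℤ),
      (∀ z ∈ S, z.1 ≤ n ∧ |(z.1 : ℝ) * ξ - z.2| ≤ δ) →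
      (S.card : ℝ) ≤ 8 * n * δ + C * (n : ℝ) ^ τ)
    (H Q G1 G2 : ℕ) (hH : 1 ≤ H) (hQ : 1 ≤ Q) (hG1 : 1 ≤ G1) (β : ℝ) (hβ : 0 ≤ β)
    (D : ℝ) (hD0 : 0 ≤ D)
    (hD : ∀ n : ℕ, 1 ≤ n → n ≤ H * (2 * Q) → (n.divisors.card : ℝ) ≤ D)
    (Ex : Finset (ℕ × ℕ)) (hEx : ∀ z ∈ Ex, z.1 < z.2 ∧ z.2 ≤ H ∧ ∃ (p : ℤ) (q : ℕ),
      Q ≤ q ∧ q < 2 * Q ∧ G1 ≤ Nat.gcd q z.2 ∧ Nat.gcd q z.2 ≤ G2 ∧
        |ξ + (z.1 : ℝ) / z.2 - (p : ℝ) / q| ≤ β) :
    (Ex.card : ℝ) ≤ G2 * D ^ 2 * (8 * ((2 * Q * H : ℝ) / G1) ^ 2 * β +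
      C * (2 * Q * H : ℝ) ^ τ) := by
  classical
  have hQ0 : (0 : ℝ) < Q := by exact_mod_cast hQ
  have hH0 : (0 : ℝ) < H := by exact_mod_cast hH
  have hG0 : (0 : ℝ) < G1 := by exact_mod_cast hG1
  set X : ℕ := H * (2 * Q) / G1 with hX
  have hXle : (X : ℝ) ≤ (2 * Q * H : ℝ) / G1 := by
    rw [hX]
    refine Nat.cast_div_le.trans (le_of_eq ?_)
    push_cast
    ring
  have hXle2 : (X : ℝ) ≤ (2 * Q * H : ℝ) := by
    refine hXle.trans ?_
    rw [div_le_iff₀ hG0]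
    have h1 : (1 : ℝ) ≤ G1 := by exact_mod_cast hG1
    have h2 : (0 : ℝ) ≤ 2 * Q * H := by positivity
    nlinarith
  have hEx' : ∀ z : ℕ × ℕ, ∃ pq : ℤ × ℕ, z ∈ Ex → Q ≤ pq.2 ∧ pq.2 < 2 * Q ∧
      G1 ≤ Nat.gcd pq.2 z.2 ∧ Nat.gcd pq.2 z.2 ≤ G2 ∧
      |ξ + (z.1 : ℝ) / z.2 - (pq.1 : ℝ) / pq.2| ≤ β := by
    intro z
    by_cases hz : z ∈ Ex
    · obtain ⟨_, _, p, q, h⟩ := hEx z hz
      exact ⟨(p, q), fun _ => h⟩
    · exact ⟨(0, 0), fun h => absurd h hz⟩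
  choose pq hpq using hEx'
  set γ : ℕ × ℕ → ℕ := fun z => Nat.gcd (pq z).2 z.2 with hγ
  set ψ : ℕ × ℕ → ℕ × ℤ := fun z => (z.2 * ((pq z).2 / γ z),
    (pq z).1 * ((z.2 / γ z : ℕ) : ℤ) - (z.1 : ℤ) * (((pq z).2 / γ z : ℕ) : ℤ)) with hψ
  set φ : ℕ × ℕ → (ℕ × ℤ) × (ℕ × ℕ) := fun z => (ψ z, (z.2, (pq z).2)) with hφ
  have hψn : ∀ z ∈ Ex, 1 ≤ (ψ z).1 ∧ (ψ z).1 ≤ X ∧ z.2 ∣ (ψ z).1 ∧ (pq z).2 ∣ (ψ z).1 := by
    intro z hz
    obtain ⟨h1, h2, h3, h4, h5⟩ := hpq z hz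
    obtain ⟨h6, h7, _⟩ := hEx z hz
    have hγ0 : 0 < γ z := Nat.gcd_pos_of_pos_right _ (by omega)
    have hgq : γ z ∣ (pq z).2 := Nat.gcd_dvd_left _ _
    have hgb : γ z ∣ z.2 := Nat.gcd_dvd_right _ _
    have hq' : 1 ≤ (pq z).2 / γ z := Nat.div_pos (Nat.le_of_dvd (by omega) hgq) hγ0
    have e1 : γ z * ((pq z).2 / γ z) = (pq z).2 := Nat.mul_div_cancel' hgq
    have e2 : γ z * (z.2 / γ z) = z.2 := Nat.mul_div_cancel' hgb
    simp only [hψ]
    refine ⟨Nat.mul_pos (by omega) hq', ?_, ⟨_, rfl⟩, ⟨z.2 / γ z, ?_⟩⟩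
    · rw [hX, Nat.le_div_iff_mul_le hG1]
      calc z.2 * ((pq z).2 / γ z) * G1 ≤ z.2 * ((pq z).2 / γ z) * γ z :=
            Nat.mul_le_mul_left _ h3
        _ = z.2 * (pq z).2 := by rw [mul_assoc, mul_comm _ (γ z), e1]
        _ ≤ H * (2 * Q) := Nat.mul_le_mul h7 h2.le
    · calc z.2 * ((pq z).2 / γ z) = (γ z * (z.2 / γ z)) * ((pq z).2 / γ z) := by rw [e2]
        _ = (γ z * ((pq z).2 / γ z)) * (z.2 / γ z) := by ring
        _ = (pq z).2 * (z.2 / γ z) := by rw [e1]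
  have hfib : ∀ s ∈ Ex.image φ, (Ex.filter (fun z => φ z = s)).card ≤ G2 := by
    intro s hs
    rw [mem_image] at hs
    obtain ⟨z0, hz0, hz0s⟩ := hs
    obtain ⟨h1, h2, h3, h4, h5⟩ := hpq z0 hz0
    obtain ⟨h6, h7, _⟩ := hEx z0 hz0
    have hγ0 : 0 < γ z0 := Nat.gcd_pos_of_pos_right _ (by omega)
    have hgb : γ z0 ∣ z0.2 := Nat.gcd_dvd_right _ _
    have e2 : γ z0 * (z0.2 / γ z0) = z0.2 := Nat.mul_div_cancel' hgb
    have hb'1 : 1 ≤ z0.2 / γ z0 := Nat.div_pos (Nat.le_of_dvd (by omega) hgb) hγ0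
    refine le_trans ?_ h4
    apply tr_fibre z0.2 ((pq z0).2 / γ z0) (γ z0) (z0.2 / γ z0) s.1.2 hb'1 e2.symm
      (Nat.coprime_div_gcd_div_gcd hγ0)
    intro z hz
    rw [mem_filter] at hz
    have hzs := hz.2.trans hz0s.symm
    simp only [hφ, Prod.mk.injEq] at hzs
    obtain ⟨h8, h9, h10⟩ := hzs
    refine ⟨(hEx z hz.1).1, h9, ?_⟩
    have h11 : γ z = γ z0 := by
      simp only [hγ]
      rw [h9, h10]
    have h12 : s.1.2 = (ψ z).2 := by
      rw [← hz.2]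
    rw [h12]
    simp only [hψ]
    rw [h11, h9, h10]
    exact ⟨(pq z).1, by ring⟩
  have hle := Finset.card_le_mul_card_image Ex G2 hfib
  set S : Finset (ℕ × ℤ) := Ex.image ψ with hS
  have hSfst : (Ex.image φ).image Prod.fst = S := by
    rw [hS, Finset.image_image]
    rfl
  have himg : ((Ex.image φ).card : ℝ) ≤ (S.card : ℝ) * D ^ 2 := by
    have h1 : (Ex.image φ).card = ∑ s ∈ S, ((Ex.image φ).filter (fun x => x.1 = s)).card :=
      Finset.card_eq_sum_card_fiberwise (fun x hx => by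
        rw [← hSfst]
        exact Finset.mem_coe.mpr (mem_image_of_mem _ (Finset.mem_coe.mp hx)))
    rw [h1]
    push_cast
    calc ∑ s ∈ S, (((Ex.image φ).filter (fun x => x.1 = s)).card : ℝ) ≤ ∑ _s ∈ S, D ^ 2 := by
          refine Finset.sum_le_sum fun s hs => ?_
          rw [hS, mem_image] at hs
          obtain ⟨z0, hz0, hz0s⟩ := hs
          obtain ⟨h2, h3, _, _⟩ := hψn z0 hz0
          rw [hz0s] at h2 h3
          have h4 : s.1 ≤ H * (2 * Q) := h3.trans (Nat.div_le_self _ _)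
          have h5 := hD s.1 h2 h4
          have h6 : ((Ex.image φ).filter (fun x => x.1 = s)).card ≤
              (s.1.divisors ×ˢ s.1.divisors).card := by
            apply Finset.card_le_card_of_injOn (fun x => x.2)
            · intro x hx
              rw [Finset.mem_coe, mem_filter, mem_image] at hx
              obtain ⟨⟨z, hz, rfl⟩, hx2⟩ := hx
              obtain ⟨g1, g2, g3, g4⟩ := hψn z hz
              have hx3 : ψ z = s := hx2
              rw [hx3] at g3 g4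
              rw [Finset.mem_coe, mem_product, Nat.mem_divisors, Nat.mem_divisors]
              exact ⟨⟨g3, by omega⟩, ⟨g4, by omega⟩⟩
            · intro x hx y hy hxy
              rw [Finset.mem_coe, mem_filter] at hx hy
              exact Prod.ext (hx.2.trans hy.2.symm) hxy
          rw [card_product] at h6
          calc (((Ex.image φ).filter (fun x => x.1 = s)).card : ℝ)
              ≤ (s.1.divisors.card : ℝ) * (s.1.divisors.card : ℝ) := by exact_mod_cast h6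
            _ ≤ D * D := mul_le_mul h5 h5 (Nat.cast_nonneg _) hD0
            _ = D ^ 2 := by ring
      _ = (S.card : ℝ) * D ^ 2 := by rw [Finset.sum_const, nsmul_eq_mul]
  have hScard : (S.card : ℝ) ≤ 8 * ((2 * Q * H : ℝ) / G1) ^ 2 * β + C * (2 * Q * H : ℝ) ^ τ := by
    rcases Nat.eq_zero_or_pos X with hX0 | hX1
    · have hE : S = ∅ := by
        rw [hS, Finset.image_eq_empty, Finset.eq_empty_iff_forall_notMem]
        intro z hz
        obtain ⟨g1, g2, _⟩ := hψn z hz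
        omega
      rw [hE]
      simp only [Finset.card_empty, Nat.cast_zero]
      positivity
    · have h1 := hcount X hX1 ((2 * Q * H : ℝ) / G1 * β) (by positivity) S (by
        intro s hs
        rw [hS, mem_image] at hs
        obtain ⟨z, hz, rfl⟩ := hs
        obtain ⟨g1, g2, _⟩ := hψn z hz
        refine ⟨g2, ?_⟩
        obtain ⟨h2, h3, h4, h5, h6⟩ := hpq z hz
        obtain ⟨h7, h8, _⟩ := hEx z hz
        have hid := tr_ident ξ z.1 z.2 (pq z).2 (γ z) (pq z).1 (by omega) (by omega) rfl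
        have e : ((ψ z).1 : ℝ) * ξ - ((ψ z).2 : ℝ) =
            ((ψ z).1 : ℝ) * (ξ + (z.1 : ℝ) / z.2 - ((pq z).1 : ℝ) / (pq z).2) := by
          simp only [hψ]
          rw [Nat.cast_mul, ← hid]
          ring
        rw [e, abs_mul, abs_of_nonneg (Nat.cast_nonneg _)]
        have g2' : ((ψ z).1 : ℝ) ≤ (2 * Q * H : ℝ) / G1 := by
          have : ((ψ z).1 : ℝ) ≤ X := by exact_mod_cast g2
          exact this.trans hXle
        exact mul_le_mul g2' h6 (abs_nonneg _) (by positivity))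
      refine h1.trans (add_le_add ?_ ?_)
      · calc 8 * (X : ℝ) * ((2 * Q * H : ℝ) / G1 * β)
            ≤ 8 * ((2 * Q * H : ℝ) / G1) * ((2 * Q * H : ℝ) / G1 * β) :=
              mul_le_mul_of_nonneg_right (mul_le_mul_of_nonneg_left hXle (by norm_num))
                (by positivity)
          _ = _ := by ring
      · exact mul_le_mul_of_nonneg_left (Real.rpow_le_rpow (Nat.cast_nonneg _) hXle2 hτ.le)
          hC.le
  calc (Ex.card : ℝ) ≤ G2 * ((Ex.image φ).card : ℝ) := by exact_mod_cast hle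
    _ ≤ G2 * ((8 * ((2 * Q * H : ℝ) / G1) ^ 2 * β + C * (2 * Q * H : ℝ) ^ τ) * D ^ 2) := by
        refine mul_le_mul_of_nonneg_left ?_ (Nat.cast_nonneg _)
        exact himg.trans (mul_le_mul_of_nonneg_right hScard (by positivity))
    _ = _ := by ring

end Pool.Agent.R366.LG
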